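import Pool.Agent.H86.OCM.RasV2
import Pool.Agent.H50.OCM.Carry
import Pool.Agent.H1.OCM.LAT

/-!
# Rows which are not full are not hit, in any codimension: proof of `RAVSStmt`
-/

set_option autoImplicit false

namespace Pool.OCM.RV

open Finset Real
open Pool.Agent.H49.Ent Pool.Agent.H32.Dense Pool.STK Pool.KAF Pool.KAL Pool.KX Pool.KAL.TI
open Pool.OC
open Pool.OC.RS (mi mi_eq mi_eq' mi_comm mi_nonneg mi_congr mi_chain mi_mono mi_mono_left mi_ctx
  mi_sum_one mi_sum_two sum_classes CH_mono_ctx div_div_two sum_s5 Pr_nonneg' switch cond_congr)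

theorem carryV_thm (c : ℕ) : CarryV c := fun _ _ _ _ N _ _ _ W hp hΞ hL hW =>
  Pool.OCM.carryV hp N hΞ hL W hW

theorem nearV_thm (c : ℕ) : NearV c := fun X Ξ L n hΞ => by
  classical
  refine le_trans (le_of_eq ?_) (Pool.OCM.nearV X Ξ L hΞ n)
  refine Finset.sum_congr rfl fun u _ => ?_
  congr

theorem rowHV_nonneg {Ω θ : Type} [Fintype Ω] {c : ℕ} {p : Ω → ℝ} (hp : IsLaw p)
    (N : Ω → Fin c → ℤ) (κ K : ℕ) (τ : Ω → θ) {ω : Ω} (hω : 0 < p ω) :
    0 ≤ rowHV p N κ K τ ω := by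
  unfold rowHV
  have hq := isLaw_cond hp (fun v => (rc N (κ + K) v, τ v)) hω
  exact Pool.Agent.H49.Ent.H_nonneg hq.nonneg hq.sum_one _

open Classical in
/-- The main case. -/
theorem ravs_main {c : ℕ} (k k1 C₁ : ℕ) (C₀ ε : ℝ) (hε : 0 < ε)
    (hε1 : ε ≤ 1) (Kc : ℕ) (e₁ : ℝ) (he₁ : 0 < e₁) (hc : 0 < c)
    (hL : LATat c (k + (k1 + 1) + 2) Kc C₀ C₁ e₁)
    (hKc : 4 * (c : ℝ) * c * C₁ * ((Kc : ℝ) / 2 ^ Kc) ≤ ε / 2 / 16) (D : ℝ) (hD : C₀ + 1 ≤ D) :
    ∃ K : ℕ, ∀ Fc : ℕ,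
    ∃ (δ : ℝ) (r₁ : ℕ) (C : Cov c), 0 < δ ∧ C.Unit ∧ ∀ (c₀ X : ℕ) (a b : ℤ), b - a ≤ X →
    ∀ (Ω χ χ₀ ν γ O θ : Type) [Fintype Ω] (p : Ω → ℝ) (N₁ N₂ : Ω → Fin c → ℤ) (t : Ω → θ)
      (x : Ω → χ) (x0 : Ω → χ₀) (V : Ω → ν) (Z : Ω → Ω → Fin c → ℝ) (G : ℤ → Ω → γ)
      (o : ℤ → Ω → O) (F : Finset O) (mu : Ω → ℤ) (A : Set Ω), IsLaw p → Det p x t → Det p x x0 →
      (∀ ω, 0 < p ω → ∀ i, |(N₂ ω i : ℝ) - N₁ ω i - 2 ^ X * Z ω ω i| ≤ 2 ^ c₀) →
      (∀ ω ω' v, 0 < p ω → 0 < p ω' → 0 < p v → x ω = x ω' → Z ω v = Z ω' v) →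
      (∀ ω v v', 0 < p ω → 0 < p v → 0 < p v' → V v = V v' → Z ω v = Z ω v') →
      (∀ s, Det p (fun ω => (G (s + 1) ω, x0 ω)) (G s)) →
      (∀ s, Det p (fun ω => (V ω, x0 ω)) (G s)) →
      (∀ s, Det p (fun ω => (G s ω, x ω)) (fun ω => (mu ω, ω ∈ A))) →
      (∀ s ω, o s ω ∈ F) → F.card ≤ Fc →
      (∀ s, Det p (fun ω => (G (s + K) ω, x0 ω)) (o s)) →
      (∀ s, Det p (fun ω => (o s ω, (G s ω, x0 ω))) (G (s + K))) →
      (∀ s, ∀ ω ω', 0 < p ω → 0 < p ω' → ω ∈ A → 0 ≤ s + mu ω → G s ω = G s ω' → x0 ω = x0 ω' →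
        ∀ i, |Z ω ω i - Z ω ω' i| ≤ (2 : ℝ) ^ ((k : ℤ) - (s + mu ω))) →
      Pool.KVA.MI p V x x0 ≤ δ * X → Pool.KVA.MI p N₁ V x ≤ δ * X →
      Pool.KVA.MI p N₂ V x ≤ δ * X → Pool.KVA.MI p N₂ x t ≤ δ * X →
      ∑ ω, p ω * ∑ s ∈ Finset.Ico a b,
        (if ω ∈ A ∧ (r₁ : ℤ) ≤ s + mu ω ∧ s + mu ω + r₁ + c₀ ≤ X then
          (∑ u : Fin c → Fin (2 ^ X),
            if low p (sh N₂ u) t (X + k + 1 - (s + mu ω).toNat) Kc D ω then
              Pr (Pool.Agent.H49.Ent.cond p (fun v => (G s v, x0 v)) (G s ω, x0 ω))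
                {v | (2 : ℝ) ^ (-(s + mu ω + k1)) ≤
                  |∑ i, C θ (law p (fun v => (N₂ v, t v))) X (s + mu ω).toNat u (N₂ ω) (t ω) i *
                    (Z ω ω i - Z ω v i)|}
            else 0) / (2 : ℝ) ^ (c * X)
        else 0) ≤ ε * X := by
  obtain ⟨kb, K, hK, hras⟩ := rasV_r (carryV_thm c) (nearV_thm c) k (k1 + 1) C₁ C₀ (ε / 2)
    (by positivity) (by linarith only [hε1]) Kc e₁ he₁ hL hKc
  refine ⟨K, fun Fc => ?_⟩
  obtain ⟨δ₁, r₀, hδ₁, hras⟩ := hras Fc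
  have hK0 : 0 < K := by omega
  have hK0' : (0 : ℝ) < K := by exact_mod_cast hK0
  set a₁ := ε / 4 with ha₁
  have ha₁0 : 0 < a₁ := by positivity
  refine ⟨min δ₁ (ε / 4 * a₁ / K), r₀, covC c kb (k + (k1 + 1) + 2) Kc e₁
    (fun X r => X - (r + (k1 + 1) + kb + 1)), lt_min hδ₁ (by positivity),
    covC_unit hc _ _ _ _ _, ?_⟩
  intro c₀ X a b hab Ω χ χ₀ ν γ O θ _ p N₁ N₂ t x x0 V Z G o F mu A hp htx hx0 hN hZx hZV hG hV
    hAmu hoF hFc hoG hGo hcell hiV hi1 hi2 hi3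
  have hp0 := hp.nonneg
  simp only [covC_eq]
  -- the covector
  set cv : ℕ → (Fin c → Fin (2 ^ X)) → Ω → Fin c → ℝ := fun r u ω =>
    rcv p N₂ t kb (k + (k1 + 1) + 2) Kc e₁ (X - (r + (k1 + 1) + kb + 1)) u (N₂ ω) (t ω) with hcv
  have hcu : ∀ r u ω, ∑ i, |cv r u ω i| ≤ 1 := fun r u ω => (covOf_unit hc _ _).le
  -- a point of the space
  obtain ⟨ω₀, hω₀⟩ : ∃ ω₀, 0 < p ω₀ := by
    by_contra hcon
    push Not at hcon
    have h1 : ∑ ω, p ω = 0 := Finset.sum_eq_zero fun ω _ => le_antisymm (hcon ω) (hp0 ω)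
    rw [hp.sum_one] at h1
    exact one_ne_zero h1
  -- the cells, indexed by the rows
  set Γ : ℕ → Ω → (ℤ × γ) ⊕ ν := fun r ω =>
    if ω ∈ A then Sum.inl (mu ω, G ((r : ℤ) - mu ω) ω) else Sum.inr (V ω) with hΓdef
  set o' : ℕ → Ω → O := fun r ω => if ω ∈ A then o ((r : ℤ) - mu ω) ω else o 0 ω₀ with ho'def
  have hΓA : ∀ r ω, ω ∈ A → Γ r ω = Sum.inl (mu ω, G ((r : ℤ) - mu ω) ω) := fun r ω h => by
    simp only [hΓdef, if_pos h]
  have hΓA' : ∀ r ω, ω ∉ A → Γ r ω = Sum.inr (V ω) := fun r ω h => by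
    simp only [hΓdef, if_neg h]
  have hoA : ∀ r ω, ω ∈ A → o' r ω = o ((r : ℤ) - mu ω) ω := fun r ω h => by
    simp only [ho'def, if_pos h]
  have hoA' : ∀ r ω, ω ∉ A → o' r ω = o 0 ω₀ := fun r ω h => by
    simp only [ho'def, if_neg h]
  -- equality of cells
  have hcases : ∀ r ω ω', Γ r ω = Γ r ω' → (ω ∈ A ∧ ω' ∈ A ∧ mu ω = mu ω' ∧
      G ((r : ℤ) - mu ω) ω = G ((r : ℤ) - mu ω) ω') ∨ (ω ∉ A ∧ ω' ∉ A ∧ V ω = V ω') := by
    intro r ω ω' h
    by_cases c1 : ω ∈ A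
    · by_cases c2 : ω' ∈ A
      · rw [hΓA r ω c1, hΓA r ω' c2, Sum.inl.injEq, Prod.mk.injEq] at h
        refine Or.inl ⟨c1, c2, h.1, ?_⟩
        have h2 := h.2
        rw [← h.1] at h2
        exact h2
      · rw [hΓA r ω c1, hΓA' r ω' c2] at h
        exact absurd h (by simp)
    · by_cases c2 : ω' ∈ A
      · rw [hΓA' r ω c1, hΓA r ω' c2] at h
        exact absurd h (by simp)
      · rw [hΓA' r ω c1, hΓA' r ω' c2, Sum.inr.injEq] at h
        exact Or.inr ⟨c1, c2, h⟩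
  have hVG : ∀ s, Det p (fun ω => (V ω, x ω)) (G s) := fun s ω ω' h1 h2 h =>
    hV s ω ω' h1 h2 (Prod.ext (Prod.ext_iff.mp h).1 (hx0 ω ω' h1 h2 (Prod.ext_iff.mp h).2))
  -- the hypotheses of the sum over the rows
  have q1 : ∀ r, Det p (fun ω => (Γ (r + 1) ω, x ω)) (Γ r) := by
    intro r ω ω' h1 h2 h
    have hx : x ω = x ω' := (Prod.ext_iff.mp h).2
    rcases hcases (r + 1) ω ω' (Prod.ext_iff.mp h).1 with ⟨c1, c2, c3, c4⟩ | ⟨c1, c2, c3⟩
    · rw [hΓA r ω c1, hΓA r ω' c2, ← c3]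
      have e1 : ((r + 1 : ℕ) : ℤ) - mu ω = ((r : ℤ) - mu ω) + 1 := by
        push_cast
        ring
      rw [e1] at c4
      have h3 := hG ((r : ℤ) - mu ω) ω ω' h1 h2 (Prod.ext c4 (hx0 ω ω' h1 h2 hx))
      rw [h3]
    · rw [hΓA' r ω c1, hΓA' r ω' c2, c3]
  have q2 : ∀ r, Det p (fun ω => (V ω, x ω)) (Γ r) := by
    intro r ω ω' h1 h2 h
    have hx : x ω = x ω' := (Prod.ext_iff.mp h).2
    have hv : V ω = V ω' := (Prod.ext_iff.mp h).1
    have h3 := hAmu 0 ω ω' h1 h2 (Prod.ext (hVG 0 ω ω' h1 h2 h) hx)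
    have hmu : mu ω = mu ω' := (Prod.ext_iff.mp h3).1
    have hA : (ω ∈ A) = (ω' ∈ A) := (Prod.ext_iff.mp h3).2
    by_cases c1 : ω ∈ A
    · have c2 : ω' ∈ A := hA ▸ c1
      rw [hΓA r ω c1, hΓA r ω' c2, ← hmu, hVG ((r : ℤ) - mu ω) ω ω' h1 h2 h]
    · have c2 : ω' ∉ A := fun c => c1 (hA ▸ c)
      rw [hΓA' r ω c1, hΓA' r ω' c2, hv]
  have q3 : ∀ r ω, o' r ω ∈ F := by
    intro r ω
    by_cases c1 : ω ∈ A
    · rw [hoA r ω c1]
      exact hoF _ _
    · rw [hoA' r ω c1]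
      exact hoF _ _
  have q4 : ∀ r, Det p (fun ω => (Γ (r + K) ω, x ω)) (o' r) := by
    intro r ω ω' h1 h2 h
    have hx : x ω = x ω' := (Prod.ext_iff.mp h).2
    rcases hcases (r + K) ω ω' (Prod.ext_iff.mp h).1 with ⟨c1, c2, c3, c4⟩ | ⟨c1, c2, c3⟩
    · rw [hoA r ω c1, hoA r ω' c2, ← c3]
      have e1 : ((r + K : ℕ) : ℤ) - mu ω = ((r : ℤ) - mu ω) + K := by
        push_cast
        ring
      rw [e1] at c4
      exact hoG ((r : ℤ) - mu ω) ω ω' h1 h2 (Prod.ext c4 (hx0 ω ω' h1 h2 hx))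
    · rw [hoA' r ω c1, hoA' r ω' c2]
  have zp : ∀ (n : ℕ) (s : ℤ) (ω : Ω), s + mu ω = n →
      (2 : ℝ) ^ ((k : ℤ) - (s + mu ω)) = 2 ^ k / 2 ^ n := by
    intro n s ω h
    rw [h, zpow_sub₀ (by norm_num), zpow_natCast, zpow_natCast]
  have q5 : ∀ r ω ω', 0 < p ω → 0 < p ω' → Γ r ω = Γ r ω' → x ω = x ω' → ∀ i,
      |Z ω ω i - Z ω' ω' i| ≤ 2 ^ k / 2 ^ r := by
    intro r ω ω' h1 h2 h hx i
    rw [← hZx ω ω' ω' h1 h2 h2 hx]
    rcases hcases r ω ω' h with ⟨c1, c2, c3, c4⟩ | ⟨c1, c2, c3⟩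
    · have h3 := hcell ((r : ℤ) - mu ω) ω ω' h1 h2 c1 (by
        rw [sub_add_cancel]
        positivity) c4 (hx0 ω ω' h1 h2 hx) i
      rw [zp r ((r : ℤ) - mu ω) ω (by ring)] at h3
      exact h3
    · rw [hZV ω ω ω' h1 h1 h2 c3, sub_self, abs_zero]
      positivity
  have q6 : ∀ r ω ω', 0 < p ω → 0 < p ω' → Γ r ω = Γ r ω' → x ω = x ω' → o' r ω = o' r ω' →
      ∀ i, |Z ω ω i - Z ω' ω' i| ≤ 2 ^ k / 2 ^ (r + K) := by
    intro r ω ω' h1 h2 h hx ho i
    rw [← hZx ω ω' ω' h1 h2 h2 hx]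
    rcases hcases r ω ω' h with ⟨c1, c2, c3, c4⟩ | ⟨c1, c2, c3⟩
    · rw [hoA r ω c1, hoA r ω' c2, ← c3] at ho
      have h4 := hGo ((r : ℤ) - mu ω) ω ω' h1 h2 (Prod.ext ho (Prod.ext c4 (hx0 ω ω' h1 h2 hx)))
      have h3 := hcell ((r : ℤ) - mu ω + K) ω ω' h1 h2 c1 (by
        have : (r : ℤ) - mu ω + K + mu ω = ((r + K : ℕ) : ℤ) := by
          push_cast
          ring
        rw [this]
        positivity) h4 (hx0 ω ω' h1 h2 hx) i
      rw [zp (r + K) ((r : ℤ) - mu ω + K) ω (by push_cast; ring)] at h3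
      exact h3
    · rw [hZV ω ω ω' h1 h1 h2 c3, sub_self, abs_zero]
      positivity
  have hX0 : (0 : ℝ) ≤ X := Nat.cast_nonneg _
  have hδle : min δ₁ (ε / 4 * a₁ / K) * X ≤ δ₁ * X :=
    mul_le_mul_of_nonneg_right (min_le_left _ _) hX0
  have main := hras c₀ X Ω χ ν _ O θ p N₁ N₂ t x V (fun ω => Z ω ω) Γ o' F hp htx hN q1 q2 q3
    hFc q4 q5 q6 (hi1.trans hδle) (hi2.trans hδle) (hi3.trans hδle)
  set I := Finset.Ico r₀ (X + 1 - r₀ - c₀) with hI
  set Y : ℕ → (Fin c → Fin (2 ^ X)) → Ω → ℝ := fun r u ω =>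
    ∑ v, Pool.Agent.H49.Ent.cond p (fun v => (Γ r v, x v))
    (Γ r ω, x ω) v * (if 1 / 2 ^ (r + (k1 + 1)) ≤ |∑ i, cv r u ω i * (Z ω ω i - Z v v i)|
      then 1 else 0) with hY
  have hY0 : ∀ r u ω, 0 ≤ Y r u ω := fun r u ω => Finset.sum_nonneg fun v _ => by
    refine mul_nonneg (cond_nonneg hp0 _ _ _) ?_
    split_ifs <;> norm_num
  set P : ℤ → Ω → Prop := fun s ω => ω ∈ A ∧ (r₀ : ℤ) ≤ s + mu ω ∧ s + mu ω + r₀ + c₀ ≤ X with hP
  set w : ℤ → (Fin c → Fin (2 ^ X)) → Ω → ℝ := fun s u ω => if P s ω ∧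
    low p (sh N₂ u) t (X + k + 1 - (s + mu ω).toNat) Kc D ω then 1 else 0 with hw
  have hw0 : ∀ s u ω, 0 ≤ w s u ω := fun s u ω => by
    simp only [hw]
    split_ifs <;> norm_num
  have hw1 : ∀ s u ω, w s u ω ≤ 1 := fun s u ω => by
    simp only [hw]
    split_ifs <;> norm_num
  set ev : ℤ → (Fin c → Fin (2 ^ X)) → Ω → Set Ω := fun s u ω =>
    {v | (2 : ℝ) ^ (-(s + mu ω + k1)) ≤
      |∑ i, cv (s + mu ω).toNat u ω i * (Z ω ω i - Z ω v i)|} with hev
  -- the displacement of a block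
  set φ : ℤ → (Fin c → Fin (2 ^ X)) → Ω → O → ℝ := fun s u ω σ =>
    if ∃ v, 0 < p v ∧ G s v = G s ω ∧ x0 v = x0 ω ∧ o s v = σ ∧ v ∈ ev s u ω
      then 1 else 0 with hφ
  have hφ0 : ∀ s u ω σ, 0 ≤ φ s u ω σ := fun s u ω σ => by
    simp only [hφ]
    split_ifs <;> norm_num
  have hφ1 : ∀ s u ω σ, φ s u ω σ ≤ 1 := fun s u ω σ => by
    simp only [hφ]
    split_ifs <;> norm_num
  -- one cell
  have hone : ∀ s u, ∑ ω, p ω * (w s u ω * Pr (Pool.Agent.H49.Ent.cond p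
      (fun v => (G s v, x0 v)) (G s ω, x0 ω)) (ev s u ω)) ≤
      ∑ ω, p ω * (w s u ω * Y (s + mu ω).toNat u ω) +
        (a₁ + mi p (o s) x (fun ω => (G s ω, x0 ω)) / a₁) := by
    intro s u
    have h1 := switch hp (o s) x (fun ω => (G s ω, x0 ω)) F (fun ω _ => hoF s ω) ha₁0 (w s u)
      (φ s u) (hw0 s u) (hw1 s u) (hφ0 s u) (hφ1 s u)
    refine le_trans ?_ (h1.trans (add_le_add_left ?_ _))
    · -- the event is an event of the block
      refine Finset.sum_le_sum fun ω _ => mul_le_mul_of_nonneg_left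
        (mul_le_mul_of_nonneg_left ?_ (hw0 s u ω)) (hp0 ω)
      rw [Pool.KAF.Pr_eq]
      refine Finset.sum_le_sum fun v _ => ?_
      rcases (cond_nonneg hp0 (fun v => (G s v, x0 v)) (G s ω, x0 ω) v).eq_or_lt with hv | hv
      · rw [← hv, zero_mul]
        split_ifs <;> exact le_rfl
      obtain ⟨g1, g2⟩ := (cond_pos_iff hp0 (fun v => (G s v, x0 v)) (G s ω, x0 ω) v).1 hv
      split_ifs with hmem
      · have h2 : φ s u ω (o s v) = 1 := by
          simp only [hφ]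
          rw [if_pos ⟨v, g1, (Prod.ext_iff.mp g2).1, (Prod.ext_iff.mp g2).2, rfl, hmem⟩]
        rw [h2, mul_one]
      · exact mul_nonneg hv.le (hφ0 _ _ _ _)
    · -- the same cell, with all the times
      refine Finset.sum_le_sum fun ω _ => ?_
      rcases (hp0 ω).eq_or_lt with hω | hω
      · rw [← hω, zero_mul, zero_mul]
      refine mul_le_mul_of_nonneg_left ?_ hω.le
      by_cases hPω : P s ω
      swap
      · have h2 : w s u ω = 0 := by
          simp only [hw]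
          rw [if_neg (fun h => hPω h.1)]
        rw [h2, zero_mul, zero_mul]
      refine mul_le_mul_of_nonneg_left ?_ (hw0 s u ω)
      obtain ⟨hωA, hr1, hr2⟩ := hPω
      set r := (s + mu ω).toNat with hr
      have hrz : (r : ℤ) = s + mu ω := Int.toNat_of_nonneg (by
        have : (0 : ℤ) ≤ r₀ := by positivity
        omega)
      have hs : (r : ℤ) - mu ω = s := by omega
      have hcg : Pool.Agent.H49.Ent.cond p (fun v => (x v, (G s v, x0 v))) (x ω, (G s ω, x0 ω)) =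
          Pool.Agent.H49.Ent.cond p (fun v => (Γ r v, x v)) (Γ r ω, x ω) := by
        refine cond_congr hp0 fun v hv => ?_
        constructor
        · intro h
          simp only [Prod.mk.injEq] at h
          have h3 := hAmu s v ω hv hω (Prod.ext h.2.1 h.1)
          have hmu : mu v = mu ω := (Prod.ext_iff.mp h3).1
          have hA : (v ∈ A) = (ω ∈ A) := (Prod.ext_iff.mp h3).2
          have hvA : v ∈ A := hA ▸ hωA
          rw [hΓA r v hvA, hΓA r ω hωA, hmu, hs, h.2.1, h.1]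
        · intro h
          simp only [Prod.mk.injEq] at h
          rcases hcases r v ω h.1 with ⟨c1, c2, c3, c4⟩ | ⟨c1, c2, c3⟩
          · rw [c3, hs] at c4
            exact Prod.ext h.2 (Prod.ext c4 (hx0 v ω hv hω h.2))
          · exact absurd hωA c2
      rw [hcg]
      refine Finset.sum_le_sum fun v _ => ?_
      rcases (cond_nonneg hp0 (fun v => (Γ r v, x v)) (Γ r ω, x ω) v).eq_or_lt with hv | hv
      · rw [← hv, zero_mul, zero_mul]
      refine mul_le_mul_of_nonneg_left ?_ hv.le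
      obtain ⟨g1, g2⟩ := (cond_pos_iff hp0 (fun v => (Γ r v, x v)) (Γ r ω, x ω) v).1 hv
      have gx : x v = x ω := (Prod.ext_iff.mp g2).2
      rcases hcases r v ω (Prod.ext_iff.mp g2).1 with ⟨c1, c2, c3, c4⟩ | ⟨c1, c2, c3⟩
      swap
      · exact absurd hωA c2
      rw [c3, hs] at c4
      by_cases hex : ∃ v', 0 < p v' ∧ G s v' = G s ω ∧ x0 v' = x0 ω ∧ o s v' = o s v ∧
        v' ∈ ev s u ω
      swap
      · have h2 : φ s u ω (o s v) = 0 := by
          simp only [hφ]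
          rw [if_neg hex]
        rw [h2]
        split_ifs <;> norm_num
      have h2 : φ s u ω (o s v) = 1 := by
        simp only [hφ]
        rw [if_pos hex]
      rw [h2]
      obtain ⟨v', g3, g4, g5, g6, g7⟩ := hex
      have gx0 : x0 v = x0 ω := hx0 v ω g1 hω gx
      have h3 := hGo s v' v g3 g1 (Prod.ext g6 (Prod.ext (g4.trans c4.symm) (g5.trans gx0.symm)))
      have h4 := hcell (s + K) v v' g1 g3 c1 (by omega) h3.symm (gx0.trans g5.symm)
      have h5 : (2 : ℝ) ^ ((k : ℤ) - (s + K + mu v)) ≤ 1 / 2 ^ (r + (k1 + 1)) := by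
        rw [zp (r + K) (s + K) v (by push_cast; omega), div_le_div_iff₀ (by positivity)
          (by positivity), one_mul, ← pow_add]
        exact pow_le_pow_right₀ (by norm_num) (by omega)
      have h6 : (2 : ℝ) ^ (-(s + mu ω + k1)) = 1 / 2 ^ (r + k1) := by
        rw [zpow_neg, one_div]
        congr 1
        rw [← hrz]
        exact_mod_cast zpow_natCast (2 : ℝ) (r + k1)
      have h7 : (1 : ℝ) / 2 ^ (r + k1) = 2 * (1 / 2 ^ (r + (k1 + 1))) := by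
        rw [show r + (k1 + 1) = (r + k1) + 1 by ring, pow_succ]
        field_simp
      have g7' : (2 : ℝ) ^ (-(s + mu ω + k1)) ≤
        |∑ i, cv r u ω i * (Z ω ω i - Z ω v' i)| := g7
      rw [if_pos]
      rw [h6, h7] at g7'
      rw [← hZx ω v v hω g1 g1 gx.symm, ← hZx ω v v' hω g1 g3 gx.symm] at h4
      rw [← hZx ω v v hω g1 g1 gx.symm]
      have h8 : |∑ i, cv r u ω i * (Z ω ω i - Z ω v' i) -
          ∑ i, cv r u ω i * (Z ω ω i - Z ω v i)| ≤ 1 / 2 ^ (r + (k1 + 1)) := by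
        rw [← Finset.sum_sub_distrib]
        refine (Finset.abs_sum_le_sum_abs _ _).trans ?_
        have e2 : ∀ i, |cv r u ω i * (Z ω ω i - Z ω v' i) - cv r u ω i * (Z ω ω i - Z ω v i)| ≤
            |cv r u ω i| * (1 / 2 ^ (r + (k1 + 1))) := by
          intro i
          rw [← mul_sub, abs_mul]
          refine mul_le_mul_of_nonneg_left ?_ (abs_nonneg _)
          have e3 : Z ω ω i - Z ω v' i - (Z ω ω i - Z ω v i) = Z ω v i - Z ω v' i := by ring
          rw [e3]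
          exact (h4 i).trans h5
        refine (Finset.sum_le_sum fun i _ => e2 i).trans ?_
        rw [← Finset.sum_mul]
        exact mul_le_of_le_one_left (by positivity) (hcu r u ω)
      have h9 := abs_sub_abs_le_abs_sub (∑ i, cv r u ω i * (Z ω ω i - Z ω v' i))
        (∑ i, cv r u ω i * (Z ω ω i - Z ω v i))
      linarith only [g7', h8, h9]
  -- from the cells to the rows
  have hre : ∀ u ω, ∑ s ∈ Finset.Ico a b, w s u ω * Y (s + mu ω).toNat u ω ≤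
      ∑ r ∈ I, (if low p (sh N₂ u) t (X - r + (k + 1)) Kc (C₀ + 1) ω then 1 else 0) *
        Y r u ω := by
    intro u ω
    set h : ℕ → ℝ := fun r => (if low p (sh N₂ u) t (X - r + (k + 1)) Kc (C₀ + 1) ω
      then 1 else 0) * Y r u ω with hh
    have hh0 : ∀ r, 0 ≤ h r := fun r => mul_nonneg (by split_ifs <;> norm_num) (hY0 r u ω)
    have e1 : ∀ s ∈ Finset.Ico a b, w s u ω * Y (s + mu ω).toNat u ω ≤
        if (r₀ : ℤ) ≤ s + mu ω ∧ s + mu ω + r₀ + c₀ ≤ X then h (s + mu ω).toNat else 0 := by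
      intro s _
      by_cases c1 : P s ω ∧ low p (sh N₂ u) t (X + k + 1 - (s + mu ω).toNat) Kc D ω
      · have c2 : (r₀ : ℤ) ≤ s + mu ω ∧ s + mu ω + r₀ + c₀ ≤ X := c1.1.2
        simp only [hw]
        rw [if_pos c1, if_pos c2]
        refine mul_le_mul_of_nonneg_right ?_ (hY0 _ _ _)
        have e2 : X + k + 1 - (s + mu ω).toNat = X - (s + mu ω).toNat + (k + 1) := by omega
        have c3 : low p (sh N₂ u) t (X - (s + mu ω).toNat + (k + 1)) Kc (C₀ + 1) ω := by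
          have c4 := c1.2
          rw [e2] at c4
          unfold low at c4 ⊢
          linarith only [hD, c4]
        rw [if_pos c3]
      · simp only [hw]
        rw [if_neg c1, zero_mul]
        split_ifs
        · exact hh0 _
        · exact le_rfl
    refine (Finset.sum_le_sum e1).trans ?_
    rw [← Finset.sum_filter]
    set S := (Finset.Ico a b).filter
      (fun s => (r₀ : ℤ) ≤ s + mu ω ∧ s + mu ω + r₀ + c₀ ≤ X) with hS
    have hmem : ∀ s ∈ S, (r₀ : ℤ) ≤ s + mu ω ∧ s + mu ω + r₀ + c₀ ≤ X := fun s hs =>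
      (Finset.mem_filter.mp hs).2
    have e3 : ∑ s ∈ S, h (s + mu ω).toNat = ∑ r ∈ S.image (fun s => (s + mu ω).toNat), h r := by
      rw [Finset.sum_image]
      intro s hs s' hs' hss
      have h1 := hmem s hs
      have h2 := hmem s' hs'
      have h3 : (s + mu ω).toNat = (s' + mu ω).toNat := hss
      have : (0 : ℤ) ≤ r₀ := by positivity
      omega
    rw [e3]
    refine Finset.sum_le_sum_of_subset_of_nonneg ?_ fun r _ _ => hh0 r
    intro r hr
    obtain ⟨s, hs, rfl⟩ := Finset.mem_image.mp hr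
    have h1 := hmem s hs
    rw [hI, Finset.mem_Ico]
    omega
  -- the switch of the context
  have hsw : ∑ s ∈ Finset.Ico a b, (a₁ + mi p (o s) x (fun ω => (G s ω, x0 ω)) / a₁) ≤
      ε / 2 * X := by
    rcases le_or_gt b a with hba | hba
    · rw [Finset.Ico_eq_empty (not_lt.mpr hba), Finset.sum_empty]
      positivity
    obtain ⟨n, hn⟩ := Int.eq_ofNat_of_zero_le (sub_nonneg.mpr hba.le)
    have e1 : ∑ s ∈ Finset.Ico a b, (a₁ + mi p (o s) x (fun ω => (G s ω, x0 ω)) / a₁) =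
        ∑ i ∈ range n, (a₁ + mi p (o (a + i)) x (fun ω => (G (a + i) ω, x0 ω)) / a₁) := by
      have e2 : Finset.Ico a b = (range n).image (fun i : ℕ => a + (i : ℤ)) := by
        ext s
        rw [Finset.mem_Ico, Finset.mem_image]
        constructor
        · intro hs
          exact ⟨(s - a).toNat, Finset.mem_range.mpr (by omega), by omega⟩
        · rintro ⟨i, hi, rfl⟩
          have := Finset.mem_range.mp hi
          omega
      rw [e2, Finset.sum_image]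
      intro i _ j _ hij
      have : a + (i : ℤ) = a + j := hij
      omega
    rw [e1, Finset.sum_add_distrib, Finset.sum_const, Finset.card_range, nsmul_eq_mul,
      ← Finset.sum_div]
    have e3 : ∑ i ∈ range n, mi p (o (a + i)) x (fun ω => (G (a + i) ω, x0 ω)) ≤
        ∑ i ∈ range n, mi p ((fun (j : ℕ) => G (a + j)) (i + K)) x
          (fun ω => (G (a + i) ω, x0 ω)) := by
      refine Finset.sum_le_sum fun i _ => ?_
      refine mi_mono_left hp0 _ _ _ _ fun ω ω' h1 h2 h => ?_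
      simp only [Prod.mk.injEq] at h
      have e4 : a + ((i + K : ℕ) : ℤ) = a + i + K := by
        push_cast
        ring
      rw [e4] at h
      exact hoG (a + i) ω ω' h1 h2 (Prod.ext h.1 h.2.2)
    have e5 := sum_s5 hp0 x V x0 (fun (j : ℕ) => G (a + j)) (fun r => by
      have e6 : a + ((r + 1 : ℕ) : ℤ) = a + r + 1 := by
        push_cast
        ring
      simp only [e6]
      exact hG (a + r)) (fun r => hV _) hK0 n
    rw [mi_comm hp0 x V] at e5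
    have e7 : mi p V x x0 ≤ ε / 4 * a₁ / K * X :=
      hiV.trans (mul_le_mul_of_nonneg_right (min_le_right _ _) hX0)
    have e8 : (K : ℝ) * mi p V x x0 ≤ ε / 4 * a₁ * X := by
      have := mul_le_mul_of_nonneg_left e7 hK0'.le
      have e9 : (K : ℝ) * (ε / 4 * a₁ / K * X) = ε / 4 * a₁ * X := by
        field_simp
      linarith only [this, e9]
    have e10 : (∑ i ∈ range n, mi p (o (a + i)) x (fun ω => (G (a + i) ω, x0 ω))) / a₁ ≤
        ε / 4 * X := by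
      rw [div_le_iff₀ ha₁0]
      have := e3.trans (e5.trans e8)
      linarith only [e3, e5, e8]
    have hnX : (n : ℝ) ≤ X := by
      have : (n : ℤ) ≤ X := by omega
      exact_mod_cast this
    have e11 : (n : ℝ) * a₁ ≤ X * (ε / 4) := mul_le_mul hnX le_rfl ha₁0.le hX0
    linarith only [e10, e11]
  have hcard2 : ((univ : Finset (Fin c → Fin (2 ^ X))).card : ℝ) = 2 ^ (c * X) := by
    rw [Finset.card_univ, Fintype.card_fun, Fintype.card_fin, Fintype.card_fin]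
    push_cast
    rw [← pow_mul, mul_comm]
  -- conclusion
  have hlhs : ∀ ω, p ω * ∑ s ∈ Finset.Ico a b,
        (if ω ∈ A ∧ (r₀ : ℤ) ≤ s + mu ω ∧ s + mu ω + r₀ + c₀ ≤ X then
          (∑ u : Fin c → Fin (2 ^ X),
            if low p (sh N₂ u) t (X + k + 1 - (s + mu ω).toNat) Kc D ω then
              Pr (Pool.Agent.H49.Ent.cond p (fun v => (G s v, x0 v)) (G s ω, x0 ω))
                {v | (2 : ℝ) ^ (-(s + mu ω + k1)) ≤
                  |∑ i, rcv p N₂ t kb (k + (k1 + 1) + 2) Kc e₁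
                    (X - ((s + mu ω).toNat + (k1 + 1) + kb + 1)) u (N₂ ω) (t ω) i *
                    (Z ω ω i - Z ω v i)|}
            else 0) / (2 : ℝ) ^ (c * X)
        else 0) = (∑ u : Fin c → Fin (2 ^ X), ∑ s ∈ Finset.Ico a b, p ω * (w s u ω *
            Pr (Pool.Agent.H49.Ent.cond p (fun v => (G s v, x0 v)) (G s ω, x0 ω))
              (ev s u ω))) / 2 ^ (c * X) := by
    intro ω
    rw [Finset.sum_comm, Finset.mul_sum, Finset.sum_div]
    refine Finset.sum_congr rfl fun s _ => ?_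
    rw [← Finset.mul_sum, mul_div_assoc]
    congr 1
    by_cases hPω : P s ω
    · rw [if_pos (show ω ∈ A ∧ (r₀ : ℤ) ≤ s + mu ω ∧ s + mu ω + r₀ + c₀ ≤ X from hPω)]
      congr 1
      refine Finset.sum_congr rfl fun u _ => ?_
      simp only [hw]
      by_cases hl : low p (sh N₂ u) t (X + k + 1 - (s + mu ω).toNat) Kc D ω
      · rw [if_pos hl, if_pos ⟨hPω, hl⟩, one_mul]
      · rw [if_neg hl, if_neg (fun h => hl h.2), zero_mul]
    · rw [if_neg (show ¬ (ω ∈ A ∧ (r₀ : ℤ) ≤ s + mu ω ∧ s + mu ω + r₀ + c₀ ≤ X) from hPω)]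
      symm
      rw [div_eq_zero_iff]
      refine Or.inl (Finset.sum_eq_zero fun u _ => ?_)
      simp only [hw]
      rw [if_neg (fun h => hPω h.1), zero_mul]
  rw [Finset.sum_congr rfl fun ω _ => hlhs ω, ← Finset.sum_div, div_le_iff₀ (by positivity),
    Finset.sum_comm]
  have hu : ∀ u : Fin c → Fin (2 ^ X), ∑ ω, ∑ s ∈ Finset.Ico a b, p ω * (w s u ω *
            Pr (Pool.Agent.H49.Ent.cond p (fun v => (G s v, x0 v)) (G s ω, x0 ω))
              (ev s u ω)) ≤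
      ∑ r ∈ I, ∑ ω, p ω * ((if low p (sh N₂ u) t (X - r + (k + 1)) Kc (C₀ + 1) ω
        then 1 else 0) * Y r u ω) + ε / 2 * X := by
    intro u
    rw [Finset.sum_comm]
    refine (Finset.sum_le_sum fun s _ => hone s u).trans ?_
    rw [Finset.sum_add_distrib]
    refine add_le_add ?_ hsw
    rw [Finset.sum_comm, Finset.sum_comm (s := I)]
    refine Finset.sum_le_sum fun ω _ => ?_
    rw [← Finset.mul_sum, ← Finset.mul_sum]
    exact mul_le_mul_of_nonneg_left (hre u ω) (hp0 ω)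
  refine (Finset.sum_le_sum fun u _ => hu u).trans ?_
  rw [Finset.sum_add_distrib, Finset.sum_const, nsmul_eq_mul, hcard2, Finset.sum_comm]
  have main' : ∑ r ∈ I, ∑ u : Fin c → Fin (2 ^ X), ∑ ω, p ω *
      ((if low p (sh N₂ u) t (X - r + (k + 1)) Kc (C₀ + 1) ω then 1 else 0) * Y r u ω) ≤
      2 ^ (c * X) * (ε / 2 * X) := main
  linarith only [main]

/-- **RAVS.** -/
theorem ravs_thm {c : ℕ} (hc : 0 < c) : RAVSStmt c := by
  classical
  intro k k1 ε hε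
  obtain ⟨C₀, C₁, hL⟩ := latat Pool.Agent.H1.OCM.lat_thm c hc
  set ε' := min ε 1 with hε'
  have hε'0 : 0 < ε' := lt_min hε one_pos
  obtain ⟨K₀, hK₀⟩ := face_const c C₁ (ε := ε' / 2 / 16) (by positivity)
  refine ⟨max (C₀ + 1) (c * (K₀ * Real.log 2) + 1), fun D hD Kc => ?_⟩
  have hD1 : C₀ + 1 ≤ D := (le_max_left _ _).trans hD
  have hD2 : c * (K₀ * Real.log 2) + 1 ≤ D := (le_max_right _ _).trans hD
  by_cases hKc : K₀ ≤ Kc
  · obtain ⟨e₁, he₁, hL'⟩ := hL (k + (k1 + 1) + 2) Kc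
    obtain ⟨K, h1⟩ := ravs_main k k1 C₁ C₀ ε' hε'0 (min_le_right _ _) Kc e₁ he₁ hc hL'
      (hK₀ Kc hKc) D hD1
    refine ⟨K, fun Fc => ?_⟩
    obtain ⟨δ, r₁, C, hδ, hC, h2⟩ := h1 Fc
    refine ⟨δ, r₁, C, hδ, hC, ?_⟩
    intro c₀ X a b hab Ω χ χ₀ ν γ O θ _ p N₁ N₂ t x x0 V Z G o F mu A hp htx hx0 hN hZx hZV hG hV
      hAmu hoF hFc hoG hGo hcell hiV hi1 hi2 hi3
    have h3 := h2 c₀ X a b hab Ω χ χ₀ ν γ O θ p N₁ N₂ t x x0 V Z G o F mu A hp htx hx0 hN hZx hZV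
      hG hV hAmu hoF hFc hoG hGo hcell hiV hi1 hi2 hi3
    refine h3.trans (mul_le_mul_of_nonneg_right (min_le_left _ _) (Nat.cast_nonneg _))
  · -- no row is low
    refine ⟨0, fun Fc => ⟨1, 0, covC c 0 0 0 0 (fun _ _ => 0), one_pos, covC_unit hc _ _ _ _ _,
      ?_⟩⟩
    intro c₀ X a b hab Ω χ χ₀ ν γ O θ _ p N₁ N₂ t x x0 V Z G o F mu A hp htx hx0 hN hZx hZV hG hV
      hAmu hoF hFc hoG hGo hcell hiV hi1 hi2 hi3
    have hlow : ∀ (u : Fin c → Fin (2 ^ X)) (κ : ℕ) (ω : Ω), 0 < p ω →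
        ¬ low p (sh N₂ u) t κ Kc D ω := by
      intro u κ ω hω h
      unfold low at h
      have h1 := rowHV_nonneg hp (sh N₂ u) κ Kc t hω
      have h2 : (Kc : ℝ) ≤ K₀ := by
        have := (not_le.mp hKc).le
        exact_mod_cast this
      have hl : 0 ≤ Real.log 2 := Real.log_nonneg (by norm_num)
      have h3 : (c : ℝ) * (Kc * Real.log 2) ≤ c * (K₀ * Real.log 2) := by gcongr
      linarith only [hD2, h, h1, h3]
    have h0 : ∀ ω, p ω * ∑ s ∈ Finset.Ico a b,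
        (if ω ∈ A ∧ ((0 : ℕ) : ℤ) ≤ s + mu ω ∧ s + mu ω + ((0 : ℕ) : ℤ) + c₀ ≤ X then
          (∑ u : Fin c → Fin (2 ^ X),
            if low p (sh N₂ u) t (X + k + 1 - (s + mu ω).toNat) Kc D ω then
              Pr (Pool.Agent.H49.Ent.cond p (fun v => (G s v, x0 v)) (G s ω, x0 ω))
                {v | (2 : ℝ) ^ (-(s + mu ω + k1)) ≤
                  |∑ i, covC c 0 0 0 0 (fun _ _ => 0) θ (law p (fun v => (N₂ v, t v))) X
                    (s + mu ω).toNat u (N₂ ω) (t ω) i * (Z ω ω i - Z ω v i)|}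
            else 0) / (2 : ℝ) ^ (c * X)
        else 0) = 0 := by
      intro ω
      rcases (hp.nonneg ω).eq_or_lt with hω | hω
      · rw [← hω, zero_mul]
      rw [Finset.sum_eq_zero, mul_zero]
      intro s _
      split_ifs
      · rw [Finset.sum_eq_zero, zero_div]
        intro u _
        rw [if_neg (hlow u _ ω hω)]
      · rfl
    rw [Finset.sum_eq_zero fun ω _ => h0 ω]
    positivity

end Pool.OCM.RV
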