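import Pool.Agent.H86.OCM.Defs
import Pool.Agent.H86.OC.RASa
import Pool.Agent.H98.OCM.Stmts

/-!
# Invariance inside a cell
-/

set_option autoImplicit false

namespace Pool.OCM.RV

open Finset Real
open Pool.Agent.H49.Ent Pool.Agent.H32.Dense Pool.STK Pool.KAF Pool.KAL Pool.KX Pool.KAL.TI
open Pool.OC.RS

section

variable {Ω Ω' S T β θ : Type} [Fintype Ω] [Fintype Ω'] {c : ℕ}

/-- The translations, of length at most `2 ^ (kb + kd)`, which leave a law on the box `v` nearly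
invariant inside the box. -/
def XiS (q : Ω → ℝ) (X : Ω → Fin c → ℤ) (v : Fin c → ℤ) (kb kd K : ℕ) (e : ℝ) :
    Set (Fin c → ℤ) :=
  {ξ | (∀ i, |ξ i| ≤ 2 ^ (kb + kd)) ∧ TIVin (smp c (2 ^ kb) q) (smX (N := 2 ^ kb) X)
    (box v (kb + kd + K) (2 ^ (kb + kd))) ξ e}

open Classical in
/-- A covector nearly orthogonal to a set of vectors, if there is one. -/
noncomputable def covOf {c : ℕ} (kb : ℕ) (Ξ : Set (Fin c → ℤ)) : Fin c → ℝ :=
  if h : ∃ n : Fin c → ℝ, ∑ i, |n i| = 1 ∧ ∀ ξ ∈ Ξ, |∑ i, n i * ξ i| ≤ 2 ^ kb then h.choose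
  else fun i => if (i : ℕ) = 0 then 1 else 0

theorem covOf_unit (hc : 0 < c) (kb : ℕ) (Ξ : Set (Fin c → ℤ)) : ∑ i, |covOf kb Ξ i| = 1 := by
  classical
  unfold covOf
  split_ifs with h
  · exact h.choose_spec.1
  · rw [Finset.sum_eq_single (⟨0, hc⟩ : Fin c)]
    · simp
    · intro i _ hi
      have h0 : (i : ℕ) ≠ 0 := fun h0 => hi (Fin.ext h0)
      simp [h0]
    · intro h0
      exact absurd (mem_univ _) h0

theorem covOf_spec {kb : ℕ} {Ξ : Set (Fin c → ℤ)}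
    (h : ∃ n : Fin c → ℝ, ∑ i, |n i| = 1 ∧ ∀ ξ ∈ Ξ, |∑ i, n i * ξ i| ≤ 2 ^ kb) {ξ : Fin c → ℤ}
    (hξ : ξ ∈ Ξ) : |∑ i, covOf kb Ξ i * ξ i| ≤ 2 ^ kb := by
  classical
  unfold covOf
  rw [dif_pos h]
  exact h.choose_spec.2 ξ hξ

/-! ### The mean of a function of the position -/

theorem mean_law (q : Ω → ℝ) (X : Ω → S) (F : Finset S) (hF : ∀ ω, X ω ∈ F) (φ : S → ℝ) :
    ∑ ω, q ω * φ (X ω) = ∑ s ∈ F, law q X s * φ s := by
  classical
  rw [sum_mul_eq_sum_image q X φ]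
  refine Finset.sum_subset ?_ fun s _ hs => ?_
  · intro s hs
    obtain ⟨ω, _, rfl⟩ := Finset.mem_image.mp hs
    exact hF ω
  · rw [law_eq_zero_of_notMem q X hs, zero_mul]

/-- The means of a function of the position for two laws which are near. -/
theorem mean_tv (q q' : Ω → ℝ) (X : Ω → S) (F : Finset S) (hF : ∀ ω, X ω ∈ F) (φ : S → ℝ)
    (h0 : ∀ s, 0 ≤ φ s) (h1 : ∀ s, φ s ≤ 1) :
    |∑ ω, q ω * φ (X ω) - ∑ ω, q' ω * φ (X ω)| ≤ ∑ s ∈ F, |law q X s - law q' X s| := by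
  rw [mean_law q X F hF φ, mean_law q' X F hF φ, ← Finset.sum_sub_distrib]
  refine (Finset.abs_sum_le_sum_abs _ _).trans (Finset.sum_le_sum fun s _ => ?_)
  rw [← sub_mul, abs_mul, abs_of_nonneg (h0 s)]
  exact mul_le_of_le_one_right (abs_nonneg _) (h1 s)

theorem Pr_smp' (q : Ω → ℝ) (X : Ω → Fin c → ℤ) {N : ℕ} (E : Set (Fin c → ℤ)) :
    Pr (smp c N q) {w | smX (N := N) X w ∈ E} = ∑ ω, q ω * avg c N E (X ω) :=
  Pr_smp q X (fun _ => E)

theorem Pr_smp_sub (q : Ω → ℝ) (X : Ω → Fin c → ℤ) {N : ℕ} (E : Set (Fin c → ℤ))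
    (ξ : Fin c → ℤ) :
    Pr (smp c N q) {w | smX (N := N) X w - ξ ∈ E} =
      ∑ ω, q ω * avg c N {y | y - ξ ∈ E} (X ω) :=
  Pr_smp q X (fun _ => {y | y - ξ ∈ E})

/-- Invariance inside a set, for two laws which are near. -/
theorem tivin_of_tv {q q' : Ω → ℝ} {X : Ω → Fin c → ℤ} {N : ℕ} (hN : 0 < N)
    {C : Set (Fin c → ℤ)} {ξ : Fin c → ℤ} {e t : ℝ} (F : Finset (Fin c → ℤ))
    (hF : ∀ ω, X ω ∈ F) (h : TIVin (smp c N q) (smX (N := N) X) C ξ e)
    (ht : ∑ s ∈ F, |law q X s - law q' X s| ≤ t) :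
    TIVin (smp c N q') (smX (N := N) X) C ξ (e + 2 * t) := by
  intro E hE hE'
  have h1 := h E hE hE'
  rw [Pr_smp', Pr_smp_sub] at h1 ⊢
  have h2 := mean_tv q q' X F hF (avg c N E) (avg_nonneg E) (avg_le_one hN E)
  have h3 := mean_tv q q' X F hF (avg c N {y | y - ξ ∈ E}) (avg_nonneg _) (avg_le_one hN _)
  rw [abs_le] at h1 h2 h3 ⊢
  constructor <;> linarith [h1.1, h1.2, h2.1, h2.2, h3.1, h3.2]

/-! ### The cells -/

theorem rc_of_box {v : Fin c → ℤ} {l : ℕ} {M : ℤ} (hM : 0 ≤ M) {y : Fin c → ℤ}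
    (hy : y ∈ box v l M) : (fun i => y i / ((2 ^ l : ℕ) : ℤ)) = v := by
  funext i
  obtain ⟨h1, h2⟩ := hy i
  have hL : (0 : ℤ) < ((2 ^ l : ℕ) : ℤ) := by positivity
  refine le_antisymm ?_ ?_
  · refine Int.lt_add_one_iff.mp ?_
    rw [Int.ediv_lt_iff_lt_mul hL]
    linarith
  · rw [Int.le_ediv_iff_mul_le hL]
    linarith

theorem rc_of_box_smX {X : Ω → Fin c → ℤ} {v : Fin c → ℤ} {l N : ℕ} {M : ℤ} (hM : (N : ℤ) ≤ M)
    {w : Ω × (Fin c → Fin N)} (hy : smX X w ∈ box v l M) : rc X l w.1 = v := by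
  have h0 : (0 : ℤ) ≤ N := by positivity
  refine rc_of_box (y := X w.1) (M := 0) le_rfl fun i => ?_
  obtain ⟨h1, h2⟩ := hy i
  have h3 : smX X w i = X w.1 i + ((w.2 i : ℕ) : ℤ) := rfl
  have h4 : ((w.2 i : ℕ) : ℤ) < N := by exact_mod_cast (w.2 i).2
  have h5 : (0 : ℤ) ≤ ((w.2 i : ℕ) : ℤ) := by positivity
  constructor
  · linarith
  · linarith

/-- The probability of an event of the smoothed position, by cells. -/
theorem Pr_cells {q : Ω → ℝ} (hq : IsLaw q) (X : Ω → Fin c → ℤ) (l : ℕ) {N : ℕ}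
    (E : (Fin c → ℤ) → Set (Fin c → ℤ)) :
    ∑ ω, q ω * avg c N (E (rc X l ω)) (X ω) =
      ∑ ω, q ω * Pr (smp c N (Pool.Agent.H49.Ent.cond q (rc X l) (rc X l ω)))
        {w | smX (N := N) X w ∈ E (rc X l ω)} := by
  rw [← tower hq.nonneg (rc X l) (fun ω => avg c N (E (rc X l ω)) (X ω))]
  refine Finset.sum_congr rfl fun ω _ => ?_
  rcases (hq.nonneg ω).eq_or_lt with hω | hω
  · rw [← hω, zero_mul, zero_mul]
  congr 1
  rw [Pr_smp']
  refine Finset.sum_congr rfl fun v _ => ?_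
  rcases (cond_nonneg hq.nonneg (rc X l) (rc X l ω) v).eq_or_lt with hv | hv
  · rw [← hv, zero_mul, zero_mul]
  rw [((cond_pos_iff hq.nonneg (rc X l) (rc X l ω) v).1 hv).2]

/-- A law which is nearly invariant under a translation: the cells in which it is not nearly
invariant, one sign. -/
theorem bad_sign {q : Ω → ℝ} (hq : IsLaw q) (X : Ω → Fin c → ℤ) (l : ℕ) {N : ℕ} (hN : 0 < N)
    {M : ℤ} (hM : (N : ℤ) ≤ M) {ξ : Fin c → ℤ} {e : ℝ} (he : 0 < e) (σ : ℝ) {e₀ : ℝ}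
    (hT : ∀ E : Set (Fin c → ℤ), σ * (Pr (smp c N q) {w | smX (N := N) X w ∈ E} -
      Pr (smp c N q) {w | smX (N := N) X w - ξ ∈ E}) ≤ e₀) :
    Pr q {ω | ∃ E ⊆ box (rc X l ω) l M, (∀ y ∈ E, y + ξ ∈ box (rc X l ω) l M) ∧
      e < σ * (Pr (smp c N (Pool.Agent.H49.Ent.cond q (rc X l) (rc X l ω)))
        {w | smX (N := N) X w ∈ E} -
        Pr (smp c N (Pool.Agent.H49.Ent.cond q (rc X l) (rc X l ω)))
        {w | smX (N := N) X w - ξ ∈ E})} ≤ e₀ / e := by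
  classical
  have hM0 : 0 ≤ M := le_trans (by positivity) hM
  set D : (Fin c → ℤ) → Set (Fin c → ℤ) → ℝ := fun v E =>
    σ * (Pr (smp c N (Pool.Agent.H49.Ent.cond q (rc X l) v)) {w | smX (N := N) X w ∈ E} -
      Pr (smp c N (Pool.Agent.H49.Ent.cond q (rc X l) v)) {w | smX (N := N) X w - ξ ∈ E})
    with hD
  set P : (Fin c → ℤ) → Prop := fun v => ∃ E ⊆ box v l M, (∀ y ∈ E, y + ξ ∈ box v l M) ∧
    e < D v E with hP
  set E₀ : (Fin c → ℤ) → Set (Fin c → ℤ) := fun v => if h : P v then h.choose else ∅ with hE₀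
  have hE1 : ∀ v, E₀ v ⊆ box v l M := by
    intro v
    by_cases h : P v
    · simp only [hE₀, dif_pos h]
      exact h.choose_spec.1
    · simp only [hE₀, dif_neg h]
      exact Set.empty_subset _
  have hE2 : ∀ v, ∀ y ∈ E₀ v, y + ξ ∈ box v l M := by
    intro v y hy
    by_cases h : P v
    · simp only [hE₀, dif_pos h] at hy
      exact h.choose_spec.2.1 y hy
    · simp only [hE₀, dif_neg h] at hy
      exact absurd hy (Set.notMem_empty y)
  have hE3 : ∀ v, P v → e < D v (E₀ v) := by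
    intro v h
    simp only [hE₀, dif_pos h]
    exact h.choose_spec.2.2
  have hE4 : ∀ v, ¬ P v → D v (E₀ v) = 0 := by
    intro v h
    simp only [hE₀, dif_neg h, hD]
    simp
  -- the union
  set E' : Set (Fin c → ℤ) := {y | y ∈ E₀ (fun i => y i / ((2 ^ l : ℕ) : ℤ))} with hE'
  have hmem1 : ∀ w : Ω × (Fin c → Fin N), smX (N := N) X w ∈ E' ↔
      smX (N := N) X w ∈ E₀ (rc X l w.1) := by
    intro w
    constructor
    · intro h
      have h1 : smX (N := N) X w ∈ E₀ (fun i => smX (N := N) X w i / ((2 ^ l : ℕ) : ℤ)) := h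
      have h2 := rc_of_box_smX hM (hE1 _ h1)
      rw [h2]
      exact h1
    · intro h
      have h2 := rc_of_box hM0 (hE1 _ h)
      show smX (N := N) X w ∈ E₀ (fun i => smX (N := N) X w i / ((2 ^ l : ℕ) : ℤ))
      rw [h2]
      exact h
  have hmem2 : ∀ w : Ω × (Fin c → Fin N), smX (N := N) X w - ξ ∈ E' ↔
      smX (N := N) X w - ξ ∈ E₀ (rc X l w.1) := by
    intro w
    constructor
    · intro h
      have h1 : smX (N := N) X w - ξ ∈
        E₀ (fun i => (smX (N := N) X w - ξ) i / ((2 ^ l : ℕ) : ℤ)) := h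
      have h3 := hE2 _ _ h1
      rw [sub_add_cancel] at h3
      have h2 := rc_of_box_smX hM h3
      rw [h2]
      exact h1
    · intro h
      have h2 := rc_of_box hM0 (hE1 _ h)
      show smX (N := N) X w - ξ ∈ E₀ (fun i => (smX (N := N) X w - ξ) i / ((2 ^ l : ℕ) : ℤ))
      rw [h2]
      exact h
  have e1 : Pr (smp c N q) {w | smX (N := N) X w ∈ E'} =
      ∑ ω, q ω * avg c N (E₀ (rc X l ω)) (X ω) := by
    rw [← Pr_smp q X (fun ω => E₀ (rc X l ω))]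
    congr 1
    ext w
    exact hmem1 w
  have e2 : Pr (smp c N q) {w | smX (N := N) X w - ξ ∈ E'} =
      ∑ ω, q ω * avg c N {y | y - ξ ∈ E₀ (rc X l ω)} (X ω) := by
    rw [← Pr_smp q X (fun ω => {y | y - ξ ∈ E₀ (rc X l ω)})]
    congr 1
    ext w
    exact hmem2 w
  have h1 := hT E'
  rw [e1, e2, Pr_cells hq X l E₀, Pr_cells hq X l (fun v => {y | y - ξ ∈ E₀ v}),
    ← Finset.sum_sub_distrib, Finset.mul_sum] at h1
  have h2 : ∀ ω, σ * (q ω * Pr (smp c N (Pool.Agent.H49.Ent.cond q (rc X l) (rc X l ω)))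
        {w | smX (N := N) X w ∈ E₀ (rc X l ω)} -
      q ω * Pr (smp c N (Pool.Agent.H49.Ent.cond q (rc X l) (rc X l ω)))
        {w | smX (N := N) X w ∈ {y | y - ξ ∈ E₀ (rc X l ω)}}) =
      q ω * D (rc X l ω) (E₀ (rc X l ω)) := by
    intro ω
    simp only [hD]
    have : {w : Ω × (Fin c → Fin N) | smX (N := N) X w ∈ {y | y - ξ ∈ E₀ (rc X l ω)}} =
      {w | smX (N := N) X w - ξ ∈ E₀ (rc X l ω)} := rfl
    rw [this]
    ring
  rw [Finset.sum_congr rfl fun ω _ => h2 ω] at h1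
  rw [le_div_iff₀ he, Pool.KAF.Pr_eq, Finset.sum_mul]
  refine le_trans (Finset.sum_le_sum fun ω _ => ?_) h1
  have h3 := hq.nonneg ω
  split_ifs with h
  · exact mul_le_mul_of_nonneg_left (hE3 _ h).le h3
  · rw [hE4 _ h, zero_mul, mul_zero]

/-- The cells in which the law is not nearly invariant. -/
theorem bad_cells {q : Ω → ℝ} (hq : IsLaw q) (X : Ω → Fin c → ℤ) (l : ℕ) {N : ℕ} (hN : 0 < N)
    {M : ℤ} (hM : (N : ℤ) ≤ M) {ξ : Fin c → ℤ} {e : ℝ} (he : 0 < e) {e₀ : ℝ}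
    (hT : ∀ E : Set (Fin c → ℤ), |Pr (smp c N q) {w | smX (N := N) X w ∈ E} -
      Pr (smp c N q) {w | smX (N := N) X w - ξ ∈ E}| ≤ e₀) :
    Pr q {ω | ¬ TIVin (smp c N (Pool.Agent.H49.Ent.cond q (rc X l) (rc X l ω)))
      (smX (N := N) X) (box (rc X l ω) l M) ξ e} ≤ 2 * (e₀ / e) := by
  have h1 := bad_sign hq X l hN hM (ξ := ξ) he 1 (e₀ := e₀) (fun E => by
    have := (abs_le.mp (hT E)).2
    linarith)
  have h2 := bad_sign hq X l hN hM (ξ := ξ) he (-1) (e₀ := e₀) (fun E => by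
    have := (abs_le.mp (hT E)).1
    linarith)
  refine (Pr_mono hq.nonneg (fun ω _ h => ?_)).trans ((Pr_union_le hq.nonneg _ _).trans
    ((add_le_add h1 h2).trans (le_of_eq (by ring))))
  have h3 : ¬ TIVin (smp c N (Pool.Agent.H49.Ent.cond q (rc X l) (rc X l ω)))
      (smX (N := N) X) (box (rc X l ω) l M) ξ e := h
  unfold TIVin at h3
  push Not at h3
  obtain ⟨E, hE, hE', h4⟩ := h3
  rcases lt_abs.mp h4 with h5 | h5
  · exact Or.inl ⟨E, hE, hE', by linarith⟩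
  · exact Or.inr ⟨E, hE, hE', by linarith⟩

end

end Pool.OCM.RV
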