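import Pool.Agent.H86.OC.MIA
import Pool.Agent.H70.KAL.TI

/-!
# Rows which are not full are not hit, in any codimension: statements

`LATStmt`: a law on a box of side `2 ^ (kb + kd + K)` which, smoothed at the scale `2 ^ kb`, is
nearly invariant inside the box under translations of length at most `2 ^ (kb + kd)`: either the
translations are all nearly orthogonal to one covector, or the rows above the level `kb + kd` are
full.

`RAVStmt`: vector form of `Pool.OC.RowSumStmt`. The displacements of the copies of the line at a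
row which is not full are nearly orthogonal to one covector, which depends only on the law of
`(N₂, t)`, on the level, on the shift of the grid, on the cell of the position `N₂` and on `t`.
-/

set_option autoImplicit false

namespace Pool.OCM.RV

open Finset Real
open Pool.Agent.H49.Ent Pool.Agent.H32.Dense Pool.STK Pool.KAF Pool.KAL Pool.KX

/-- The cell of side `2 ^ l` of a vector, in the grid with the shift `u`. -/
def cl {Ω : Type} {c : ℕ} (N : Ω → Fin c → ℤ) (u l : ℕ) (ω : Ω) : Fin c → ℤ :=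
  fun i => (N ω i + (u : ℤ)) / ((2 ^ l : ℕ) : ℤ)

/-- The box of side `2 ^ l` with the label `v`, with margins `M`. -/
def box {c : ℕ} (v : Fin c → ℤ) (l : ℕ) (M : ℤ) : Set (Fin c → ℤ) :=
  {y | ∀ i, v i * ((2 ^ l : ℕ) : ℤ) + M ≤ y i ∧ y i + M < (v i + 1) * ((2 ^ l : ℕ) : ℤ)}

/-- Invariance under one translation, inside a set. -/
def TIVin {Ω : Type} [Fintype Ω] {c : ℕ} (q : Ω → ℝ) (Y : Ω → Fin c → ℤ) (C : Set (Fin c → ℤ))
    (ξ : Fin c → ℤ) (e : ℝ) : Prop :=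
  ∀ E : Set (Fin c → ℤ), E ⊆ C → (∀ y ∈ E, y + ξ ∈ C) →
    |Pr q {ω | Y ω ∈ E} - Pr q {ω | Y ω - ξ ∈ E}| ≤ e

/-- The entropy of the rows of `N`, with the shift `u`, between the levels `κ` and `κ + K`, in the
cell of `ω`. -/
noncomputable def rowV {Ω θ : Type} [Fintype Ω] {c : ℕ} (p : Ω → ℝ) (N : Ω → Fin c → ℤ)
    (u κ K : ℕ) (τ : Ω → θ) (ω : Ω) : ℝ :=
  H (cond p (fun v => (cl N u (κ + K) v, τ v)) (cl N u (κ + K) ω, τ ω)) (cl N u κ)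

/-- **LAT.** Translations which leave a law on a box nearly invariant, and rows which are not full:
the translations are nearly orthogonal to one covector. -/
def LATStmt : Prop :=
  ∀ c : ℕ, 0 < c → ∃ (C₀ : ℝ) (C₁ : ℕ), ∀ kd K : ℕ, ∃ e : ℝ, 0 < e ∧ ∀ (kb : ℕ) (Ω : Type)
    [Fintype Ω] (q : Ω → ℝ) (X : Ω → Fin c → ℤ) (v : Fin c → ℤ) (Ξ : Set (Fin c → ℤ)), IsLaw q →
    (∀ ω, 0 < q ω → cl X 0 (kb + kd + K) ω = v) →
    (∀ ξ ∈ Ξ, (∀ i, |ξ i| ≤ 2 ^ (kb + kd)) ∧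
      TIVin (smp c (2 ^ kb) q) (smX (N := 2 ^ kb) X)
        (box v (kb + kd + K) (2 ^ (kb + kd))) ξ e) →
    (∃ n : Fin c → ℝ, ∑ i, |n i| = 1 ∧ ∀ ξ ∈ Ξ, |∑ i, n i * ξ i| ≤ 2 ^ kb) ∨
    c * K * Real.log 2 - C₀ - c * K * Real.log 2 *
      Pr q {ω | X ω ∉ box v (kb + kd + K) (C₁ * 2 ^ (kb + kd))} ≤ H q (cl X 0 (kb + kd))

open Classical in
/-- **RAV.** Rows which are not full are not hit, in any codimension. -/
def RAVStmt : Prop :=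
  ∀ c : ℕ, 0 < c → ∃ D : ℝ, ∀ (k k1 : ℕ) (ε : ℝ), 0 < ε → ε ≤ 1 → ∃ K₀ : ℕ, ∀ Kc ≥ K₀,
    ∃ K : ℕ, ∀ Fc : ℕ, ∃ (δ : ℝ) (r₀ : ℕ), 0 < δ ∧ ∀ (X : ℕ) (θ : Type)
    (L : (Fin c → ℤ) × θ → ℝ), ∃ cov : ℕ → ℕ → (Fin c → ℤ) → θ → Fin c → ℝ,
    (∀ l u v τ, ∑ i, |cov l u v τ i| = 1) ∧ ∀ (c₀ : ℕ) (a b : ℤ), b - a ≤ X →
    ∀ (Ω χ χ₀ ν γ O : Type) [Fintype Ω] (p : Ω → ℝ) (N₁ N₂ : Ω → Fin c → ℤ) (t : Ω → θ)
      (x : Ω → χ) (x0 : Ω → χ₀) (V : Ω → ν) (Z : Ω → Ω → Fin c → ℝ) (G : ℤ → Ω → γ)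
      (o : ℤ → Ω → O) (F : Finset O) (mu : Ω → ℤ) (A : Set Ω), IsLaw p →
      law p (fun ω => (N₂ ω, t ω)) = L → Det p x t → Det p x x0 →
      (∀ ω, 0 < p ω → ∀ i, |(N₂ ω i : ℝ) - N₁ ω i - 2 ^ X * Z ω ω i| ≤ 2 ^ c₀) →
      (∀ ω ω' v, 0 < p ω → 0 < p ω' → 0 < p v → x ω = x ω' → Z ω v = Z ω' v) →
      (∀ ω v v', 0 < p ω → 0 < p v → 0 < p v' → V v = V v' → Z ω v = Z ω v') →
      (∀ s, Det p (fun ω => (G (s + 1) ω, x0 ω)) (G s)) →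
      (∀ s, Det p (fun ω => (V ω, x0 ω)) (G s)) →
      (∀ s, Det p (fun ω => (G s ω, x ω)) (fun ω => (mu ω, ω ∈ A))) →
      (∀ s ω, o s ω ∈ F) → F.card ≤ Fc →
      (∀ s, Det p (fun ω => (G (s + K) ω, x0 ω)) (o s)) →
      (∀ s, Det p (fun ω => (o s ω, (G s ω, x0 ω))) (G (s + K))) →
      (∀ s, ∀ ω ω', 0 < p ω → 0 < p ω' → ω ∈ A → 0 ≤ s + mu ω → G s ω = G s ω' → x0 ω = x0 ω' →
        ∀ i, |Z ω ω i - Z ω ω' i| ≤ (2 : ℝ) ^ ((k : ℤ) - (s + mu ω))) →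
      Pool.OC.RS.mi p V x x0 ≤ δ * X → Pool.OC.RS.mi p N₁ V x ≤ δ * X →
      Pool.OC.RS.mi p N₂ V x ≤ δ * X → Pool.OC.RS.mi p N₂ x t ≤ δ * X →
      ∑ ω, p ω * ∑ s ∈ Finset.Ico a b,
        (if ω ∈ A ∧ (r₀ : ℤ) ≤ s + mu ω ∧ s + mu ω + c₀ + r₀ ≤ X then
          (∑ u ∈ range (2 ^ X),
            if rowV p N₂ u (X + k + 1 - (s + mu ω).toNat) Kc t ω ≤ c * Kc * Real.log 2 - D then
              Pr (Pool.Agent.H49.Ent.cond p (fun v => (G s v, x0 v)) (G s ω, x0 ω))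
                {v | (2 : ℝ) ^ (-(s + mu ω + k1)) ≤
                  |∑ i, cov (X + k + 1 - (s + mu ω).toNat) u
                    (cl N₂ u (X + k + 1 - (s + mu ω).toNat + Kc) ω) (t ω) i *
                    (Z ω ω i - Z ω v i)|}
            else 0) / 2 ^ X
        else 0) ≤ ε * X

end Pool.OCM.RV
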