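import Pool.Agent.H86.OCM.One2

/-!
# The covector depends on the law only
-/

set_option autoImplicit false

namespace Pool.OCM.RV

open Finset Real
open Pool.Agent.H49.Ent Pool.Agent.H32.Dense Pool.STK Pool.KAF Pool.KAL Pool.KX Pool.KAL.TI
open Pool.OC Pool.OC.RS

section

variable {Ω Ω' S T θ : Type} [Fintype Ω] [Fintype Ω'] {c : ℕ}

theorem ex_law {p : Ω → ℝ} {p' : Ω' → ℝ} {Y : Ω → S} {Y' : Ω' → S} (h : law p Y = law p' Y')
    (f : S → ℝ) : ∑ v, p v * f (Y v) = ∑ v, p' v * f (Y' v) := by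
  classical
  rw [mean_law p Y (univ.image Y ∪ univ.image Y')
    (fun ω => Finset.mem_union_left _ (Finset.mem_image_of_mem _ (mem_univ _))) f,
    mean_law p' Y' (univ.image Y ∪ univ.image Y')
    (fun ω => Finset.mem_union_right _ (Finset.mem_image_of_mem _ (mem_univ _))) f, h]

theorem cond_ex_law {p : Ω → ℝ} {p' : Ω' → ℝ} {Y : Ω → S} {Y' : Ω' → S}
    (h : law p Y = law p' Y') (g : S → T) (t : T) (f : S → ℝ) :
    ∑ v, Pool.Agent.H49.Ent.cond p (fun v => g (Y v)) t v * f (Y v) =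
      ∑ v, Pool.Agent.H49.Ent.cond p' (fun v => g (Y' v)) t v * f (Y' v) := by
  classical
  have key : ∀ {W : Type} [Fintype W] (q : W → ℝ) (U : W → S),
      ∑ v, Pool.Agent.H49.Ent.cond q (fun v => g (U v)) t v * f (U v) =
        (∑ v, q v * (if g (U v) = t then f (U v) else 0)) /
          ∑ v, q v * (if g (U v) = t then 1 else 0) := by
    intro W _ q U
    have e1 : law q (fun v => g (U v)) t = ∑ v, q v * (if g (U v) = t then 1 else 0) := by
      unfold law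
      refine Finset.sum_congr rfl fun v _ => ?_
      by_cases h1 : g (U v) = t <;> simp [h1]
    rw [← e1, Finset.sum_div]
    refine Finset.sum_congr rfl fun v _ => ?_
    unfold Pool.Agent.H49.Ent.cond
    by_cases h1 : g (U v) = t
    · simp only [h1, if_true]
      ring
    · simp only [h1, if_false]
      ring
  rw [key p Y, key p' Y', ex_law h (fun s => if g s = t then f s else 0),
    ex_law h (fun s => if g s = t then (1 : ℝ) else 0)]

/-- The translations which leave the law nearly invariant depend on the law only. -/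
theorem XiS_law {p : Ω → ℝ} {p' : Ω' → ℝ} {Y : Ω → S} {Y' : Ω' → S} (h : law p Y = law p' Y')
    (g : S → T) (t : T) (X : S → Fin c → ℤ) (v : Fin c → ℤ) (kb kd K : ℕ) (e : ℝ) :
    XiS (Pool.Agent.H49.Ent.cond p (fun v => g (Y v)) t) (fun v => X (Y v)) v kb kd K e =
      XiS (Pool.Agent.H49.Ent.cond p' (fun v => g (Y' v)) t) (fun v => X (Y' v)) v kb kd K e := by
  unfold XiS TIVin
  ext ξ
  simp only [Set.mem_setOf_eq]
  have e1 : ∀ E : Set (Fin c → ℤ),
      Pr (smp c (2 ^ kb) (Pool.Agent.H49.Ent.cond p (fun v => g (Y v)) t))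
        {w | smX (N := 2 ^ kb) (fun v => X (Y v)) w ∈ E} =
      Pr (smp c (2 ^ kb) (Pool.Agent.H49.Ent.cond p' (fun v => g (Y' v)) t))
        {w | smX (N := 2 ^ kb) (fun v => X (Y' v)) w ∈ E} := by
    intro E
    rw [Pr_smp', Pr_smp']
    exact cond_ex_law h g t (fun s => avg c (2 ^ kb) E (X s))
  have e2 : ∀ E : Set (Fin c → ℤ),
      Pr (smp c (2 ^ kb) (Pool.Agent.H49.Ent.cond p (fun v => g (Y v)) t))
        {w | smX (N := 2 ^ kb) (fun v => X (Y v)) w - ξ ∈ E} =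
      Pr (smp c (2 ^ kb) (Pool.Agent.H49.Ent.cond p' (fun v => g (Y' v)) t))
        {w | smX (N := 2 ^ kb) (fun v => X (Y' v)) w - ξ ∈ E} := by
    intro E
    rw [Pr_smp_sub, Pr_smp_sub]
    exact cond_ex_law h g t (fun s => avg c (2 ^ kb) {y | y - ξ ∈ E} (X s))
  simp only [e1, e2]

/-- The position at the unit `2 ^ φ`, with a shift. -/
def pos {X : ℕ} (φ : ℕ) (u : Fin c → Fin (2 ^ X)) (n : Fin c → ℤ) (i : Fin c) : ℤ :=
  (n i + ((u i : ℕ) : ℤ)) / ((2 ^ φ : ℕ) : ℤ)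

/-- The cell of a vector. -/
def cel (l : ℕ) (n : Fin c → ℤ) (i : Fin c) : ℤ := n i / ((2 ^ l : ℕ) : ℤ)

theorem rc_eq {Ω : Type} (N : Ω → Fin c → ℤ) (l : ℕ) : rc N l = fun ω => cel l (N ω) := rfl

theorem rc_sh {Ω : Type} (N : Ω → Fin c → ℤ) {X : ℕ} (φ : ℕ) (u : Fin c → Fin (2 ^ X)) :
    rc (sh N u) φ = fun ω => pos φ u (N ω) := rfl

/-- The covector of a sample, at one row and one shift. -/
noncomputable def rcv (p : Ω → ℝ) (N : Ω → Fin c → ℤ) (t : Ω → θ) (kb kd K : ℕ) (e : ℝ)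
    {X : ℕ} (φ : ℕ) (u : Fin c → Fin (2 ^ X)) (n : Fin c → ℤ) (τ : θ) : Fin c → ℝ :=
  covOf kb (XiS (Pool.Agent.H49.Ent.cond p
    (fun v => (cel (kb + kd + K) (pos φ u (N v)), t v)) (cel (kb + kd + K) (pos φ u n), τ))
    (fun v => pos φ u (N v)) (cel (kb + kd + K) (pos φ u n)) kb kd K e)

theorem rcv_law {p : Ω → ℝ} {p' : Ω' → ℝ} {N : Ω → Fin c → ℤ} {N' : Ω' → Fin c → ℤ} {t : Ω → θ}
    {t' : Ω' → θ} (h : law p (fun v => (N v, t v)) = law p' (fun v => (N' v, t' v)))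
    (kb kd K : ℕ) (e : ℝ) {X : ℕ} (φ : ℕ) (u : Fin c → Fin (2 ^ X)) (n : Fin c → ℤ) (τ : θ) :
    rcv p N t kb kd K e φ u n τ = rcv p' N' t' kb kd K e φ u n τ := by
  unfold rcv
  congr 1
  exact XiS_law h (fun s => (cel (kb + kd + K) (pos φ u s.1), s.2))
    (cel (kb + kd + K) (pos φ u n), τ) (fun s => pos φ u s.1) _ kb kd K e

open Classical in
/-- The covectors. `φ X r` is the unit at the row `r`. -/
noncomputable def covC (c kb kd K : ℕ) (e : ℝ) (φ : ℕ → ℕ → ℕ) : Cov c :=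
  fun θ μ X r u n τ =>
    if h : ∃ (Ω : Type) (_ : Fintype Ω) (p : Ω → ℝ) (N : Ω → Fin c → ℤ) (t : Ω → θ),
      law p (fun v => (N v, t v)) = μ then
      @rcv h.choose θ h.choose_spec.choose c h.choose_spec.choose_spec.choose
        h.choose_spec.choose_spec.choose_spec.choose
        h.choose_spec.choose_spec.choose_spec.choose_spec.choose kb kd K e X (φ X r) u n τ
    else fun i => if (i : ℕ) = 0 then 1 else 0

theorem covC_unit (hc : 0 < c) (kb kd K : ℕ) (e : ℝ) (φ : ℕ → ℕ → ℕ) :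
    (covC c kb kd K e φ).Unit := by
  intro θ μ X r u n τ
  unfold covC
  split_ifs with h
  · exact covOf_unit hc _ _
  · rw [Finset.sum_eq_single (⟨0, hc⟩ : Fin c)]
    · simp
    · intro i _ hi
      have h0 : (i : ℕ) ≠ 0 := fun h0 => hi (Fin.ext h0)
      simp [h0]
    · intro h0
      exact absurd (mem_univ _) h0

theorem covC_eq (p : Ω → ℝ) (N : Ω → Fin c → ℤ) (t : Ω → θ) (kb kd K : ℕ) (e : ℝ)
    (φ : ℕ → ℕ → ℕ) (X r : ℕ) (u : Fin c → Fin (2 ^ X)) (n : Fin c → ℤ) (τ : θ) :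
    covC c kb kd K e φ θ (law p (fun v => (N v, t v))) X r u n τ =
      rcv p N t kb kd K e (φ X r) u n τ := by
  classical
  have h : ∃ (Ω' : Type) (_ : Fintype Ω') (p' : Ω' → ℝ) (N' : Ω' → Fin c → ℤ) (t' : Ω' → θ),
      law p' (fun v => (N' v, t' v)) = law p (fun v => (N v, t v)) := ⟨Ω, inferInstance, p, N, t, rfl⟩
  unfold covC
  rw [dif_pos h]
  exact @rcv_law h.choose Ω θ h.choose_spec.choose _ c _ _ _ _ _ _
    h.choose_spec.choose_spec.choose_spec.choose_spec.choose_spec kb kd K e X (φ X r) u n τ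

end

end Pool.OCM.RV
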