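import Pool.Agent.H86.OCM.Cov

/-!
# Rows which are not full are not hit, in any codimension: one scale
-/

set_option autoImplicit false

namespace Pool.OCM.RV

open Finset Real
open Pool.Agent.H49.Ent Pool.Agent.H32.Dense Pool.STK Pool.KAF Pool.KAL Pool.KX Pool.KAL.TI
open Pool.OC Pool.OC.RS

section

variable {Ω O S T β θ : Type} [Fintype Ω] {c : ℕ}

/-- Removing a nearly independent label from the context, in an average. -/
theorem switch' {p : Ω → ℝ} (hp : IsLaw p) (o : Ω → O) (d : Ω → T) (g : Ω → S) (F : Finset O)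
    (hF : ∀ ω, 0 < p ω → o ω ∈ F) {a : ℝ} (ha : 0 < a) (φ : Ω → O → ℝ)
    (hφ0 : ∀ ω s, 0 ≤ φ ω s) (hφ1 : ∀ ω s, φ ω s ≤ 1) :
    ∑ ω, p ω * ∑ v, Pool.Agent.H49.Ent.cond p (fun v => (d v, g v)) (d ω, g ω) v * φ ω (o v) ≤
      ∑ ω, p ω * ∑ v, Pool.Agent.H49.Ent.cond p g (g ω) v * φ ω (o v) +
        (a + mi p o d g / a) := by
  classical
  have h1 := switch hp o d g F hF ha (fun _ => 1) (fun ω s => 1 - φ ω s) (fun _ => zero_le_one)
    (fun _ => le_rfl) (fun ω s => sub_nonneg.mpr (hφ1 ω s)) (fun ω s => by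
      have := hφ0 ω s
      linarith)
  have e1 : ∀ (ρ : Ω → Ω → ℝ), (∀ ω, 0 < p ω → ∑ v, ρ ω v = 1) →
      ∑ ω, p ω * (1 * ∑ v, ρ ω v * (1 - φ ω (o v))) =
        1 - ∑ ω, p ω * ∑ v, ρ ω v * φ ω (o v) := by
    intro ρ hρ
    have e2 : ∀ ω, p ω * (1 * ∑ v, ρ ω v * (1 - φ ω (o v))) =
        p ω - p ω * ∑ v, ρ ω v * φ ω (o v) := by
      intro ω
      rcases (hp.nonneg ω).eq_or_lt with hω | hω
      · rw [← hω]
        ring
      have e3 : ∑ v, ρ ω v * (1 - φ ω (o v)) = 1 - ∑ v, ρ ω v * φ ω (o v) := by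
        have e4 : ∑ v, ρ ω v * (1 - φ ω (o v)) = ∑ v, (ρ ω v - ρ ω v * φ ω (o v)) :=
          Finset.sum_congr rfl fun v _ => by ring
        rw [e4, Finset.sum_sub_distrib, hρ ω hω]
      rw [e3]
      ring
    rw [Finset.sum_congr rfl fun ω _ => e2 ω, Finset.sum_sub_distrib, hp.sum_one]
  rw [e1 _ fun ω hω => (isLaw_cond hp g hω).sum_one,
    e1 _ fun ω hω => (isLaw_cond hp (fun v => (d v, g v)) hω).sum_one] at h1
  linarith

/-- A function of the value of a label. -/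
theorem tower_fun {p : Ω → ℝ} (hp : ∀ ω, 0 ≤ p ω) (b : Ω → β) (f : Ω → Ω → ℝ)
    (hf : ∀ ω v v', 0 < p v → 0 < p v' → b v = b v' → f v ω = f v' ω) :
    ∑ ω, p ω * ∑ v, Pool.Agent.H49.Ent.cond p b (b ω) v * f ω v = ∑ ω, p ω * f ω ω := by
  rw [← tower hp b (fun ω => f ω ω)]
  refine Finset.sum_congr rfl fun ω _ => ?_
  rcases (hp ω).eq_or_lt with hω | hω
  · rw [← hω, zero_mul, zero_mul]
  congr 1
  refine Finset.sum_congr rfl fun v _ => ?_
  rcases (cond_nonneg hp b (b ω) v).eq_or_lt with hv | hv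
  · rw [← hv, zero_mul, zero_mul]
  obtain ⟨h1, h2⟩ := (cond_pos_iff hp b (b ω) v).1 hv
  rw [hf v ω v hω h1 h2.symm]

/-- A pair of values of the block, seen from the position: the position may be replaced by an
independent one. -/
theorem pair_indep {p : Ω → ℝ} (hp : IsLaw p) (X : Ω → S) (b : Ω → β) (o : Ω → O)
    (F : Finset O) (hF : ∀ ω, 0 < p ω → o ω ∈ F) {a : ℝ} (ha : 0 < a)
    (φ : β → S → O → O → ℝ) (h0 : ∀ v x s s', 0 ≤ φ v x s s') (h1 : ∀ v x s s', φ v x s s' ≤ 1)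
    {r : ℝ} (hr : ∀ ω, 0 < p ω → ∀ s s', ∑ v, Pool.Agent.H49.Ent.cond p b (b ω) v *
      φ (b ω) (X v) s s' ≤ r) :
    ∑ ω, p ω * ∑ v, Pool.Agent.H49.Ent.cond p b (b ω) v * φ (b ω) (X ω) (o ω) (o v) ≤
      r + (a + mi p o X b / a) := by
  classical
  -- the mean over the second sample
  set Φ : Ω → O → ℝ := fun ω s => ∑ v, Pool.Agent.H49.Ent.cond p b (b ω) v *
    (if 0 < p ω then φ (b ω) (X ω) s (o v) else 0) with hΦ
  have hΦ0 : ∀ ω s, 0 ≤ Φ ω s := fun ω s => Finset.sum_nonneg fun v _ =>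
    mul_nonneg (cond_nonneg hp.nonneg _ _ _) (by
      split_ifs
      · exact h0 _ _ _ _
      · exact le_rfl)
  have hΦ1 : ∀ ω s, Φ ω s ≤ 1 := by
    intro ω s
    by_cases hω : 0 < p ω
    · rw [← (isLaw_cond hp b hω).sum_one]
      refine Finset.sum_le_sum fun v _ => ?_
      rw [if_pos hω]
      exact mul_le_of_le_one_right (cond_nonneg hp.nonneg _ _ _) (h1 _ _ _ _)
    · simp only [hΦ, if_neg hω, mul_zero, Finset.sum_const_zero]
      exact zero_le_one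
  have e1 : ∑ ω, p ω * ∑ v, Pool.Agent.H49.Ent.cond p b (b ω) v *
      φ (b ω) (X ω) (o ω) (o v) = ∑ ω, p ω * Φ ω (o ω) := by
    refine Finset.sum_congr rfl fun ω _ => ?_
    rcases (hp.nonneg ω).eq_or_lt with hω | hω
    · rw [← hω, zero_mul, zero_mul]
    · simp only [hΦ, if_pos hω]
  have e2 : ∑ ω, p ω * Φ ω (o ω) = ∑ ω, p ω *
      ∑ v, Pool.Agent.H49.Ent.cond p (fun v => (X v, b v)) (X ω, b ω) v * Φ ω (o v) := by
    rw [← tower_fun hp.nonneg (fun v => (X v, b v)) (fun ω v => Φ ω (o v))]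
    intro ω v v' hv hv' h
    have h2 : X v = X v' := (Prod.ext_iff.mp h).1
    have h3 : b v = b v' := (Prod.ext_iff.mp h).2
    simp only [hΦ, if_pos hv, if_pos hv', h2, h3]
  rw [e1, e2]
  refine (switch' hp o X b F hF ha Φ hΦ0 hΦ1).trans (add_le_add_left ?_ _)
  -- three independent samples
  have e3 : ∑ ω, p ω * ∑ v, Pool.Agent.H49.Ent.cond p b (b ω) v * Φ ω (o v) =
      ∑ ω, p ω * ∑ ω', Pool.Agent.H49.Ent.cond p b (b ω) ω' *
        ∑ v, Pool.Agent.H49.Ent.cond p b (b ω') v * Φ ω' (o v) :=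
    (tower hp.nonneg b (fun ω => ∑ v, Pool.Agent.H49.Ent.cond p b (b ω) v * Φ ω (o v))).symm
  rw [e3]
  have e4 : ∀ ω, p ω * ∑ ω', Pool.Agent.H49.Ent.cond p b (b ω) ω' *
        ∑ v, Pool.Agent.H49.Ent.cond p b (b ω') v * Φ ω' (o v) ≤ p ω * r := by
    intro ω
    rcases (hp.nonneg ω).eq_or_lt with hω | hω
    · rw [← hω, zero_mul, zero_mul]
    refine mul_le_mul_of_nonneg_left ?_ hω.le
    have hq := isLaw_cond hp b hω
    set q := Pool.Agent.H49.Ent.cond p b (b ω) with hqd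
    have e5 : ∀ ω', q ω' * ∑ v, Pool.Agent.H49.Ent.cond p b (b ω') v * Φ ω' (o v) =
        ∑ v, ∑ v', q v * (q v' * (q ω' * φ (b ω) (X ω') (o v) (o v'))) := by
      intro ω'
      rcases (hq.nonneg ω').eq_or_lt with hv | hv
      · rw [← hv]
        simp
      obtain ⟨k1, k2⟩ := (cond_pos_iff hp.nonneg b (b ω) ω').1 hv
      rw [k2, ← hqd, Finset.mul_sum]
      refine Finset.sum_congr rfl fun v _ => ?_
      simp only [hΦ, if_pos k1, k2]
      rw [← hqd, Finset.mul_sum, Finset.mul_sum]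
      exact Finset.sum_congr rfl fun v' _ => by ring
    rw [Finset.sum_congr rfl fun ω' _ => e5 ω', Finset.sum_comm]
    have e6 : ∀ v, ∑ ω', ∑ v', q v * (q v' * (q ω' * φ (b ω) (X ω') (o v) (o v'))) ≤
        q v * r := by
      intro v
      rw [Finset.sum_comm]
      have e7 : ∀ v', ∑ ω', q v * (q v' * (q ω' * φ (b ω) (X ω') (o v) (o v'))) ≤
          q v * (q v' * r) := by
        intro v'
        rw [← Finset.mul_sum, ← Finset.mul_sum]
        exact mul_le_mul_of_nonneg_left (mul_le_mul_of_nonneg_left (hr ω hω _ _)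
          (hq.nonneg v')) (hq.nonneg v)
      refine (Finset.sum_le_sum fun v' _ => e7 v').trans (le_of_eq ?_)
      rw [← Finset.mul_sum, ← Finset.sum_mul, hq.sum_one, one_mul]
    refine (Finset.sum_le_sum fun v _ => e6 v).trans (le_of_eq ?_)
    rw [← Finset.sum_mul, hq.sum_one, one_mul]
  refine (Finset.sum_le_sum fun ω _ => e4 ω).trans (le_of_eq ?_)
  rw [← Finset.sum_mul, hp.sum_one, one_mul]

end

end Pool.OCM.RV
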