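import Pool.Agent.H86.OCM.One
import Pool.Agent.H86.OC.RAS

/-!
# Rows which are not full are not hit, in any codimension: one scale
-/

set_option autoImplicit false

namespace Pool.OCM.RV

open Finset Real
open Pool.Agent.H49.Ent Pool.Agent.H32.Dense Pool.STK Pool.KAF Pool.KAL Pool.KX Pool.KAL.TI
open Pool.OC Pool.OC.RS

/-- The conclusion of LAT, with constants. -/
def LATat (c kd K : ℕ) (C₀ : ℝ) (C₁ : ℕ) (e : ℝ) : Prop :=
  ∀ (kb : ℕ) (Ω : Type) [Fintype Ω] (q : Ω → ℝ) (X : Ω → Fin c → ℤ) (v : Fin c → ℤ)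
    (Ξ : Set (Fin c → ℤ)), IsLaw q → (∀ ω, 0 < q ω → rc X (kb + kd + K) ω = v) →
    (∀ ξ ∈ Ξ, (∀ i, |ξ i| ≤ 2 ^ (kb + kd)) ∧
      TIVin (smp c (2 ^ kb) q) (smX (N := 2 ^ kb) X)
        (box v (kb + kd + K) (2 ^ (kb + kd))) ξ e) →
    (∃ n : Fin c → ℝ, ∑ i, |n i| = 1 ∧ ∀ ξ ∈ Ξ, |∑ i, n i * ξ i| ≤ 2 ^ kb) ∨
    c * K * Real.log 2 - C₀ - c * K * Real.log 2 *
      Pr q {ω | X ω ∉ box v (kb + kd + K) (C₁ * 2 ^ (kb + kd))} ≤ H q (rc X (kb + kd))

theorem cl_zero {Ω : Type} {c : ℕ} (X : Ω → Fin c → ℤ) (l : ℕ) : cl X 0 l = rc X l := by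
  funext ω i
  unfold cl rc
  simp

theorem latat (hL : LATStmt) (c : ℕ) (hc : 0 < c) : ∃ (C₀ : ℝ) (C₁ : ℕ), ∀ kd K : ℕ,
    ∃ e : ℝ, 0 < e ∧ LATat c kd K C₀ C₁ e := by
  obtain ⟨C₀, C₁, h⟩ := hL c hc
  refine ⟨C₀, C₁, fun kd K => ?_⟩
  obtain ⟨e, he, h1⟩ := h kd K
  refine ⟨e, he, fun kb Ω _ q X v Ξ hq hX hΞ => ?_⟩
  have h2 := h1 kb Ω q X v Ξ hq (fun ω hω => by
    rw [cl_zero]
    exact hX ω hω) hΞ
  rwa [cl_zero] at h2

/-- The conclusion of the one scale theorem, with constants. -/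
def RAVat (c kb kd Kc Fc : ℕ) (C₀ : ℝ) (C₁ : ℕ) (ε e e₁ : ℝ) : Prop :=
  ∀ (Ω O β θ : Type) [Fintype Ω] (p : Ω → ℝ) (X₁ X₂ : Ω → Fin c → ℤ) (b : Ω → β) (o : Ω → O)
    (τ : Ω → θ) (z : β → O → Fin c → ℤ) (F : Finset O) (B : Set Ω), IsLaw p → (∀ ω, o ω ∈ F) →
    F.card ≤ Fc → (∀ ω, ω ∉ B → ∀ i, |X₂ ω i - X₁ ω i - z (b ω) (o ω) i| ≤ 8) → Pr p B ≤ e →
    Det p b τ →
    (∀ ω ω', 0 < p ω → 0 < p ω' → b ω = b ω' → ∀ i,
      |z (b ω) (o ω) i - z (b ω) (o ω') i| ≤ 2 ^ (kb + kd)) →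
    Pool.KVA.MI p X₁ o b ≤ e → Pool.KVA.MI p X₂ o b ≤ e →
    Pool.KVA.MI p X₂ b (fun ω => (rc X₂ (kb + kd + Kc) ω, τ ω)) ≤ e →
    Pr (dbl p b) {w | rowHV p X₂ (kb + kd) Kc τ w.1 ≤ c * (Kc * Real.log 2) - (C₀ + 1) ∧
      c * Kc * Real.log 2 * Pr (Pool.Agent.H49.Ent.cond p
        (fun v => (rc X₂ (kb + kd + Kc) v, τ v)) (rc X₂ (kb + kd + Kc) w.1, τ w.1))
        {v | X₂ v ∉ box (rc X₂ (kb + kd + Kc) w.1) (kb + kd + Kc) (C₁ * 2 ^ (kb + kd))} ≤ 1 / 2 ∧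
      (2 : ℝ) ^ kb < |∑ i, covOf kb (XiS (Pool.Agent.H49.Ent.cond p
        (fun v => (rc X₂ (kb + kd + Kc) v, τ v)) (rc X₂ (kb + kd + Kc) w.1, τ w.1)) X₂
        (rc X₂ (kb + kd + Kc) w.1) kb kd Kc e₁) i *
        ((z (b w.1) (o w.1) i - z (b w.1) (o w.2) i : ℤ) : ℝ)|} ≤ ε

theorem rav_unif {c kd Kc : ℕ} {C₀ : ℝ} {C₁ : ℕ} {e₁ : ℝ} (he₁ : 0 < e₁)
    (hL : LATat c kd Kc C₀ C₁ e₁) {ε : ℝ} (hε : 0 < ε) (hε1 : ε ≤ 1) : ∃ kb₀ : ℕ, ∀ Fc : ℕ,
    ∃ e : ℝ, 0 < e ∧ ∀ kb ≥ kb₀, RAVat c kb kd Kc Fc C₀ C₁ ε e e₁ := by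
  classical
  obtain ⟨kb₀, hkb₀⟩ := pow_unbounded_of_one_lt (1024 * c / (e₁ * ε)) (by norm_num : (1 : ℝ) < 2)
  refine ⟨kb₀, fun Fc => ?_⟩
  -- constants
  set η : ℝ := ε / (32 * (Fc + 1)) with hη
  have hη0 : 0 < η := by positivity
  set a : ℝ := ε / 32 with ha
  have ha0 : 0 < a := by positivity
  set e5 : ℝ := min 1 ((ε * e₁ * η / 512) ^ 2) with he5
  have he50 : 0 < e5 := lt_min one_pos (by positivity)
  set a2 : ℝ := ε / 16 with ha2
  have ha20 : 0 < a2 := by positivity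
  set a3 : ℝ := ε * e₁ / 64 with ha3
  have ha30 : 0 < a3 := by positivity
  set e : ℝ := min (e5 * a) (min (a2 * a2) (a3 * a3)) with he
  have he0 : 0 < e := lt_min (by positivity) (lt_min (by positivity) (by positivity))
  have hea : e ≤ e5 * a := min_le_left _ _
  have hea2 : e ≤ a2 * a2 := (min_le_right _ _).trans (min_le_left _ _)
  have hea3 : e ≤ a3 * a3 := (min_le_right _ _).trans (min_le_right _ _)
  refine ⟨e, he0, ?_⟩
  intro kb hkb Ω O β θ _ p X₁ X₂ b o τ z F B hp hoF hFc hX hB hτ hz hM1 hM2 hM3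
  set κ := kb + kd with hκ
  set N : ℕ := 2 ^ kb with hN
  have hN0 : 0 < N := by positivity
  have hNM : (N : ℤ) ≤ 2 ^ κ := by
    rw [hN]
    push_cast
    exact pow_le_pow_right₀ (by norm_num) (by omega)
  set m2 : Ω → Fin c → ℤ := rc X₂ (κ + Kc) with hm2
  set m : Ω → (Fin c → ℤ) × θ := fun ω => (m2 ω, τ ω) with hm
  set F' : Finset (Fin c → ℤ) := univ.image X₂ with hF'
  have hXF' : ∀ ω, X₂ ω ∈ F' := fun ω => Finset.mem_image_of_mem _ (mem_univ _)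
  have hunit : ∀ X : Ω → Fin c → ℤ, Pool.KVA.MI p (fun ω => (X ω, ())) o b ≤
      Pool.KVA.MI p X o b := fun X =>
    mi_mono_left hp.nonneg X (fun ω => (X ω, ())) o b (fun ω ω' _ _ h =>
      Prod.ext (Prod.ext_iff.mp h).1 rfl)
  -- the translation
  obtain ⟨E, hE, hT⟩ := avg5_thm c N Ω O Unit β p X₂ X₁
    (fun _ => ()) o b z B 8 e5 e5 e5 a η hp hN0 (by norm_num) he50
    he50 he50 hη0 (fun ω hω i => by exact_mod_cast hX ω hω i)
    ((hunit X₂).trans (hM2.trans hea)) ((hunit X₁).trans (hM1.trans hea)) (hB.trans hea)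
  set eb : ℝ := 2 * ((Real.sqrt e5 + Real.sqrt e5 + e5) / η) + 2 * (c * 8 / N) with heb
  have heb0 : 0 ≤ eb := by positivity
  -- rare values of the block
  have hrare := avg4_thm Ω O β p o b F η hp hη0.le hoF
  set Lr : Set Ω := {ω | law (Pool.Agent.H49.Ent.cond p b (b ω)) o (o ω) < η} with hLr
  have hrare' : Pr p Lr ≤ ε / 32 := by
    refine hrare.trans ?_
    have h1 : (F.card : ℝ) ≤ Fc := by exact_mod_cast hFc
    have h2 : η * (F.card : ℝ) ≤ η * (Fc + 1) := mul_le_mul_of_nonneg_left (by linarith only [h1]) hη0.le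
    refine h2.trans (le_of_eq ?_)
    rw [hη]
    field_simp
  -- the error of the invariance in the cells
  have herr : 2 * (eb / (e₁ / 2)) ≤ ε / 8 := by
    have h1 : Real.sqrt e5 ≤ ε * e₁ * η / 512 := by
      rw [show ε * e₁ * η / 512 = Real.sqrt ((ε * e₁ * η / 512) ^ 2) from
        (Real.sqrt_sq (by positivity)).symm]
      exact Real.sqrt_le_sqrt (min_le_right _ _)
    have h2 : e5 ≤ Real.sqrt e5 := by
      have h3 : e5 ≤ 1 := min_le_left _ _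
      have h4 : e5 * e5 ≤ e5 := by nlinarith only [he50, h3]
      calc e5 = Real.sqrt (e5 * e5) := (Real.sqrt_mul_self he50.le).symm
        _ ≤ Real.sqrt e5 := Real.sqrt_le_sqrt h4
    have h3 : (Real.sqrt e5 + Real.sqrt e5 + e5) / η ≤ ε * e₁ / 128 := by
      rw [div_le_iff₀ hη0]
      nlinarith only [he50, h1, h2]
    have h4 : (c : ℝ) * 8 / N ≤ ε * e₁ / 128 := by
      have h5 : (2 : ℝ) ^ kb₀ ≤ 2 ^ kb := pow_le_pow_right₀ (by norm_num) hkb
      have h6 : 1024 * c / (e₁ * ε) ≤ 2 ^ kb := hkb₀.le.trans h5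
      rw [div_le_iff₀ (by positivity)] at h6
      rw [hN]
      push_cast
      rw [div_le_iff₀ (by positivity)]
      linarith only [h6]
    have h5 : eb ≤ ε * e₁ / 32 := by
      rw [heb]
      linarith only [h3, h4]
    have h6 : eb / (e₁ / 2) ≤ ε / 16 := by
      rw [div_le_iff₀ (by positivity)]
      linarith only [h3, h4]
    linarith only [h6]
  -- the bad pairs of values of the block
  set tiv : β → O → O → Prop := fun v s s' => ∀ E : Set (Fin c → ℤ),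
    |Pr (smp c N (Pool.Agent.H49.Ent.cond p b v)) {w | smX (N := N) X₂ w ∈ E} -
      Pr (smp c N (Pool.Agent.H49.Ent.cond p b v))
        {w | smX (N := N) X₂ w - (z v s - z v s') ∈ E}| ≤ eb with htiv
  set inn : β → (Fin c → ℤ) → O → O → Prop := fun v x s s' =>
    TIVin (smp c N (Pool.Agent.H49.Ent.cond (Pool.Agent.H49.Ent.cond p b v) m2
      (fun i => x i / ((2 ^ (κ + Kc) : ℕ) : ℤ)))) (smX (N := N) X₂)
      (box (fun i => x i / ((2 ^ (κ + Kc) : ℕ) : ℤ)) (κ + Kc) (2 ^ κ)) (z v s - z v s')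
      (e₁ / 2) with hinn
  set φ : β → (Fin c → ℤ) → O → O → ℝ := fun v x s s' =>
    if tiv v s s' ∧ ¬ inn v x s s' then 1 else 0 with hφ
  have hφ0 : ∀ v x s s', 0 ≤ φ v x s s' := fun v x s s' => by
    simp only [hφ]
    split_ifs <;> norm_num
  have hφ1 : ∀ v x s s', φ v x s s' ≤ 1 := fun v x s s' => by
    simp only [hφ]
    split_ifs <;> norm_num
  have hφr : ∀ ω, 0 < p ω → ∀ s s', ∑ v, Pool.Agent.H49.Ent.cond p b (b ω) v *
      φ (b ω) (X₂ v) s s' ≤ ε / 8 := by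
    intro ω hω s s'
    have hq := isLaw_cond hp b hω
    by_cases h1 : tiv (b ω) s s'
    · have h2 := bad_cells hq X₂ (κ + Kc) hN0 hNM (ξ := z (b ω) s - z (b ω) s')
        (e := e₁ / 2) (by positivity) h1
      refine le_trans (le_of_eq ?_) (h2.trans herr)
      rw [Pool.KAF.Pr_eq]
      refine Finset.sum_congr rfl fun v _ => ?_
      by_cases h3 : inn (b ω) (X₂ v) s s'
      · have h4 : φ (b ω) (X₂ v) s s' = 0 := by
          simp only [hφ]
          rw [if_neg (fun h => h.2 h3)]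
        rw [h4, mul_zero, if_neg]
        intro h5
        exact h5 h3
      · have h4 : φ (b ω) (X₂ v) s s' = 1 := by
          simp only [hφ]
          rw [if_pos ⟨h1, h3⟩]
        rw [h4, mul_one, if_pos]
        exact h3
    · have h2 : ∀ v, φ (b ω) (X₂ v) s s' = 0 := by
        intro v
        simp only [hφ]
        rw [if_neg (fun h => h1 h.1)]
      simp only [h2, mul_zero, Finset.sum_const_zero]
      positivity
  have hpair := pair_indep hp X₂ b o F (fun ω _ => hoF ω) ha20 φ hφ0 hφ1 hφr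
  have hmi2 : mi p o X₂ b ≤ a2 * a2 := by
    rw [mi_comm hp.nonneg]
    exact hM2.trans hea2
  have hpair' : ∑ ω, p ω * ∑ v, Pool.Agent.H49.Ent.cond p b (b ω) v *
      φ (b ω) (X₂ ω) (o ω) (o v) ≤ ε / 4 := by
    refine hpair.trans ?_
    have h1 : mi p o X₂ b / a2 ≤ a2 := by
      rw [div_le_iff₀ ha20]
      exact hmi2
    rw [ha2] at h1 ⊢
    linarith only [h1]
  -- the law of the position given the context and given the cell
  have hdec := tv_dec hp X₂ b m F' (fun ω _ => hXF' ω) ha30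
  set tv : Ω → ℝ := fun ω => ∑ s ∈ F', |law (Pool.Agent.H49.Ent.cond p m (m ω)) X₂ s -
      law (Pool.Agent.H49.Ent.cond p (fun v => (b v, m v)) (b ω, m ω)) X₂ s| with htv
  have htv0 : ∀ ω, 0 ≤ tv ω := fun ω => Finset.sum_nonneg fun _ _ => abs_nonneg _
  have hTV : Pr p {ω | e₁ / 4 < tv ω} ≤ ε / 8 := by
    refine AVG.markov hp.nonneg tv (fun ω _ => htv0 ω) (e₁ / 4) (ε / 8) (by positivity) ?_
    refine hdec.trans ?_
    have h1 : mi p X₂ b m / a3 ≤ a3 := by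
      rw [div_le_iff₀ ha30]
      exact hM3.trans hea3
    rw [ha3] at h1 ⊢
    linarith only [h1]
  have hd0 : ∀ w, 0 ≤ dbl p b w := dbl_nonneg hp.nonneg
  have m1 : ∀ E : Set Ω, Pr (dbl p b) {w | w.1 ∈ E} = Pr p E := by
    intro E
    unfold Pr
    exact (dbl_fst (b := b) hp.nonneg).law (fun ω => ω ∈ E) True
  have m2' : ∀ E : Set Ω, Pr (dbl p b) {w | w.2 ∈ E} = Pr p E := by
    intro E
    unfold Pr
    exact (dbl_snd (b := b) hp.nonneg).law (fun ω => ω ∈ E) True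
  set PB : Set (Ω × Ω) := {w | tiv (b w.1) (o w.1) (o w.2) ∧
    ¬ inn (b w.1) (X₂ w.1) (o w.1) (o w.2)} with hPB
  have m3 : Pr (dbl p b) PB ≤ ε / 4 := by
    refine le_trans (le_of_eq ?_) hpair'
    have h1 := Pr_dbl (p := p) b (fun ω v => tiv (b ω) (o ω) (o v) ∧
      ¬ inn (b ω) (X₂ ω) (o ω) (o v))
    rw [hPB, h1]
  set V₁ : Set Ω := {ω | e₁ / 4 < tv ω} with hV₁
  refine le_trans (Pr_mono hd0 (F := {w | w.1 ∈ E} ∪ ({w | w.1 ∈ Lr} ∪ ({w | w.2 ∈ Lr} ∪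
    (PB ∪ {w | w.1 ∈ V₁})))) ?_) ?_
  · intro w hw hwS
    obtain ⟨hrow, hface, hbig⟩ := hwS
    by_cases c1 : w.1 ∈ E
    · exact Or.inl c1
    by_cases c2 : w.1 ∈ Lr
    · exact Or.inr (Or.inl c2)
    by_cases c3 : w.2 ∈ Lr
    · exact Or.inr (Or.inr (Or.inl c3))
    by_cases c4 : w ∈ PB
    · exact Or.inr (Or.inr (Or.inr (Or.inl c4)))
    by_cases c5 : w.1 ∈ V₁
    · exact Or.inr (Or.inr (Or.inr (Or.inr c5)))
    exfalso
    have hb : b w.1 = b w.2 := dbl_eq hp.nonneg hw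
    have hp1 : 0 < p w.1 := ((glue_pos_iff hp.nonneg hp.nonneg w).mp hw).1
    have hp2 : 0 < p w.2 := ((glue_pos_iff hp.nonneg hp.nonneg w).mp hw).2.1
    have hq := isLaw_cond hp b hp1
    have hqm := isLaw_cond hp m hp1
    have htivw := hT w.1 c1 hp1 (o w.1) (o w.2) (le_of_not_gt fun h => c2 h) (by
      rw [hb]
      exact le_of_not_gt fun h => c3 h)
    have h1 : tiv (b w.1) (o w.1) (o w.2) := by
      intro E'
      have h2 := htivw {y | y.1 - (z (b w.1) (o w.1) - z (b w.1) (o w.2)) ∈ E'}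
      rw [abs_sub_comm] at h2
      refine le_trans (le_of_eq ?_) h2
      congr 2
      · congr 1
        ext w'
        simp only [Set.mem_setOf_eq, add_sub_cancel_right]
    have h2 : inn (b w.1) (X₂ w.1) (o w.1) (o w.2) := by
      by_contra h
      exact c4 ⟨h1, h⟩
    -- the conditional laws
    have hcc : Pool.Agent.H49.Ent.cond (Pool.Agent.H49.Ent.cond p b (b w.1)) m2 (m2 w.1) =
        Pool.Agent.H49.Ent.cond p (fun v => (b v, m v)) (b w.1, m w.1) := by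
      have h3 : 0 < Pool.Agent.H49.Ent.cond p b (b w.1) w.1 :=
        (cond_pos_iff hp.nonneg b (b w.1) w.1).2 ⟨hp1, rfl⟩
      rw [cond_swap hp.nonneg b m2 h3]
      refine cond_congr hp.nonneg fun v hv => ?_
      constructor
      · intro h
        simp only [Prod.mk.injEq] at h
        exact Prod.ext h.2 (Prod.ext h.1 (hτ v w.1 hv hp1 h.2))
      · intro h
        simp only [hm, Prod.mk.injEq] at h
        exact Prod.ext h.2.1 h.1
    have h2' : TIVin (smp c N (Pool.Agent.H49.Ent.cond p (fun v => (b v, m v)) (b w.1, m w.1)))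
        (smX (N := N) X₂) (box (m2 w.1) (κ + Kc) (2 ^ κ))
        (z (b w.1) (o w.1) - z (b w.1) (o w.2)) (e₁ / 2) := by
      rw [← hcc]
      exact h2
    have h3 : TIVin (smp c N (Pool.Agent.H49.Ent.cond p m (m w.1)))
        (smX (N := N) X₂) (box (m2 w.1) (κ + Kc) (2 ^ κ))
        (z (b w.1) (o w.1) - z (b w.1) (o w.2)) e₁ := by
      have h4 := tivin_of_tv hN0 F' hXF' h2' (q' := Pool.Agent.H49.Ent.cond p m (m w.1))
        (t := e₁ / 4) (by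
          have h5 : tv w.1 ≤ e₁ / 4 := le_of_not_gt fun h => c5 h
          refine le_trans (le_of_eq ?_) h5
          exact Finset.sum_congr rfl fun s _ => abs_sub_comm _ _)
      have h6 : e₁ / 2 + 2 * (e₁ / 4) = e₁ := by ring
      rwa [h6] at h4
    -- the covector
    have h4 : z (b w.1) (o w.1) - z (b w.1) (o w.2) ∈
        XiS (Pool.Agent.H49.Ent.cond p m (m w.1)) X₂ (m2 w.1) kb kd Kc e₁ :=
      ⟨fun i => hz w.1 w.2 hp1 hp2 hb i, h3⟩
    have hlat := hL kb Ω (Pool.Agent.H49.Ent.cond p m (m w.1)) X₂ (m2 w.1)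
      (XiS (Pool.Agent.H49.Ent.cond p m (m w.1)) X₂ (m2 w.1) kb kd Kc e₁) hqm
      (fun v hv => by
        obtain ⟨k1, k2⟩ := (cond_pos_iff hp.nonneg m (m w.1) v).1 hv
        exact (Prod.ext_iff.mp k2).1) (fun ξ hξ => hξ)
    rcases hlat with h5 | h5
    · have h6 := covOf_spec h5 h4
      refine absurd hbig (not_lt.mpr (le_trans (le_of_eq ?_) h6))
      rfl
    · have h6 : rowHV p X₂ κ Kc τ w.1 = H (Pool.Agent.H49.Ent.cond p m (m w.1)) (rc X₂ κ) := rfl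
      have h7 : c * Kc * Real.log 2 * Pr (Pool.Agent.H49.Ent.cond p m (m w.1))
        {v | X₂ v ∉ box (m2 w.1) (κ + Kc) (C₁ * 2 ^ κ)} ≤ 1 / 2 := hface
      rw [h6] at hrow
      linarith only [hrow, hface, h5]
  · have u1 := Pr_union_le hd0 {w : Ω × Ω | w.1 ∈ E} ({w | w.1 ∈ Lr} ∪ ({w | w.2 ∈ Lr} ∪
      (PB ∪ {w | w.1 ∈ V₁})))
    have u2 := Pr_union_le hd0 {w : Ω × Ω | w.1 ∈ Lr} ({w | w.2 ∈ Lr} ∪ (PB ∪ {w | w.1 ∈ V₁}))
    have u3 := Pr_union_le hd0 {w : Ω × Ω | w.2 ∈ Lr} (PB ∪ {w | w.1 ∈ V₁})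
    have u4 := Pr_union_le hd0 PB {w : Ω × Ω | w.1 ∈ V₁}
    rw [m1 E] at u1
    rw [m1 Lr] at u2
    rw [m2' Lr] at u3
    rw [m1 V₁] at u4
    have h7 : 3 * a = 3 * ε / 32 := by
      rw [ha]
      ring
    linarith only [ha, ha0, hE, hrare', m3, hTV, u1, u2, u3, u4]

end Pool.OCM.RV
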