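import Pool.Agent.H86.OCM.Inf

/-!
# Rows which are not full are not hit, in any codimension: the sum over the rows
-/

set_option autoImplicit false

namespace Pool.OCM.RV

open Finset Real
open Pool.Agent.H49.Ent Pool.Agent.H32.Dense Pool.STK Pool.KAF Pool.KAL Pool.KX Pool.KAL.TI
open Pool.OC
open Pool.OC.RS (mi mi_eq mi_eq' mi_comm mi_nonneg mi_congr mi_chain mi_mono mi_mono_left mi_ctx
  mi_sum_one mi_sum_two sum_classes CH_mono_ctx div_div_two sum_s5 Pr_nonneg')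

/-- Few shifts of the grid separate two near positions. -/
def CarryV (c : ℕ) : Prop :=
  ∀ (Ω S : Type) [Fintype Ω] (p : Ω → ℝ) (N : Ω → Fin c → ℤ) (X Ξ L : ℕ)
    (W : (Fin c → Fin (2 ^ X)) → Ω → S), IsLaw p → Ξ ≤ X → L ≤ 2 ^ Ξ →
    (∀ u ω ω', 0 < p ω → 0 < p ω' → W u ω = W u ω' → ∀ i, |N ω i - N ω' i| ≤ L) →
    ∑ u, CH p (rc (sh N u) Ξ) (W u) ≤ 2 ^ (c * X) * (c * (4 * L / 2 ^ Ξ))

open Classical in
/-- Few shifts of the grid put a position near a face. -/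
def NearV (c : ℕ) : Prop :=
  ∀ (X Ξ L : ℕ) (n : Fin c → ℤ), Ξ ≤ X →
    ∑ u : Fin c → Fin (2 ^ X), (if ∃ i, (n i + ((u i : ℕ) : ℤ)) % ((2 ^ Ξ : ℕ) : ℤ) < L ∨
      ((2 ^ Ξ : ℕ) : ℤ) - L ≤ (n i + ((u i : ℕ) : ℤ)) % ((2 ^ Ξ : ℕ) : ℤ) then (1 : ℝ) else 0) ≤
      2 ^ (c * X) * (c * (2 * L / 2 ^ Ξ))

section

variable {Ω S θ : Type} [Fintype Ω] {c : ℕ}

/-- A position outside the inner box of its cell is near a face. -/
theorem near_of_not_box {X : ℕ} (φ κ K C₁ : ℕ) (u : Fin c → Fin (2 ^ X)) (n : Fin c → ℤ)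
    (h : pos φ u n ∉ box (cel (κ + K) (pos φ u n)) (κ + K) (C₁ * 2 ^ κ)) :
    ∃ i, (n i + ((u i : ℕ) : ℤ)) % ((2 ^ (φ + (κ + K)) : ℕ) : ℤ) <
        ((C₁ * 2 ^ (φ + κ) : ℕ) : ℤ) ∨
      ((2 ^ (φ + (κ + K)) : ℕ) : ℤ) - ((C₁ * 2 ^ (φ + κ) : ℕ) : ℤ) ≤
        (n i + ((u i : ℕ) : ℤ)) % ((2 ^ (φ + (κ + K)) : ℕ) : ℤ) := by
  by_contra hcon
  push Not at hcon
  refine h fun i => ?_
  obtain ⟨h1, h2⟩ := hcon i
  set m := n i + ((u i : ℕ) : ℤ) with hm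
  have hA : (0 : ℤ) < ((2 ^ φ : ℕ) : ℤ) := by positivity
  have hB : (0 : ℤ) < ((2 ^ (κ + K) : ℕ) : ℤ) := by positivity
  have hAB : (0 : ℤ) < ((2 ^ (φ + (κ + K)) : ℕ) : ℤ) := by positivity
  have eAB : ((2 ^ (φ + (κ + K)) : ℕ) : ℤ) = ((2 ^ φ : ℕ) : ℤ) * ((2 ^ (κ + K) : ℕ) : ℤ) := by
    push_cast
    rw [pow_add]
  have e0 := Int.emod_add_mul_ediv m ((2 ^ (φ + (κ + K)) : ℕ) : ℤ)
  have e1 : cel (κ + K) (pos φ u n) i = m / ((2 ^ (φ + (κ + K)) : ℕ) : ℤ) :=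
    div_div_two m φ (κ + K)
  have e2 : pos φ u n i = m / ((2 ^ φ : ℕ) : ℤ) := rfl
  set q := m / ((2 ^ (φ + (κ + K)) : ℕ) : ℤ) with hq
  set s := m % ((2 ^ (φ + (κ + K)) : ℕ) : ℤ) with hs
  have e3 : m / ((2 ^ φ : ℕ) : ℤ) = q * ((2 ^ (κ + K) : ℕ) : ℤ) + s / ((2 ^ φ : ℕ) : ℤ) := by
    rw [← e0, eAB]
    rw [show s + ((2 ^ φ : ℕ) : ℤ) * ((2 ^ (κ + K) : ℕ) : ℤ) * q =
      s + ((2 ^ φ : ℕ) : ℤ) * (((2 ^ (κ + K) : ℕ) : ℤ) * q) by ring,
      Int.add_mul_ediv_left _ _ hA.ne']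
    ring
  have f1 : (C₁ : ℤ) * 2 ^ κ ≤ s / ((2 ^ φ : ℕ) : ℤ) := by
    rw [Int.le_ediv_iff_mul_le hA]
    refine le_trans (le_of_eq ?_) h1
    push_cast
    rw [pow_add]
    ring
  have f2 : s / ((2 ^ φ : ℕ) : ℤ) < ((2 ^ (κ + K) : ℕ) : ℤ) - C₁ * 2 ^ κ := by
    rw [Int.ediv_lt_iff_lt_mul hA]
    refine lt_of_lt_of_eq h2 ?_
    rw [eAB]
    push_cast
    rw [pow_add]
    ring
  rw [e1, e2, e3]
  constructor
  · linarith
  · linarith

open Classical in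
/-- The cells in which the law is concentrated near the faces. -/
theorem face_sum (hNV : NearV c) {p : Ω → ℝ} (hp : IsLaw p) (N : Ω → Fin c → ℤ) (t : Ω → θ)
    (κ K C₁ X φ : ℕ) (hX : φ + (κ + K) ≤ X) :
    ∑ u : Fin c → Fin (2 ^ X), ∑ ω, p ω * (if faceOK p N t κ K C₁ φ u ω then 0 else 1) ≤
      2 ^ (c * X) * (4 * c * c * C₁ * (K / 2 ^ K)) := by
  have h1 : ∀ u : Fin c → Fin (2 ^ X), ∑ ω, p ω * (if faceOK p N t κ K C₁ φ u ω then 0 else 1) ≤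
      2 * (c * K * Real.log 2) * ∑ ω, p ω *
        (if pos φ u (N ω) ∉ box (cel (κ + K) (pos φ u (N ω))) (κ + K) (C₁ * 2 ^ κ)
          then 1 else 0) := by
    intro u
    rw [← tower_fun hp.nonneg (fun v => (cel (κ + K) (pos φ u (N v)), t v))
      (fun ω v => if pos φ u (N v) ∉ box (cel (κ + K) (pos φ u (N ω))) (κ + K) (C₁ * 2 ^ κ)
        then 1 else 0) (fun ω v v' hv hv' h => by
        have h2 := (Prod.ext_iff.mp h).1
        simp only at h2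
        rw [h2]), Finset.mul_sum]
    refine Finset.sum_le_sum fun ω _ => ?_
    rcases (hp.nonneg ω).eq_or_lt with hω | hω
    · rw [← hω]
      simp
    rw [← mul_assoc, mul_comm (2 * (c * K * Real.log 2)) (p ω), mul_assoc]
    refine mul_le_mul_of_nonneg_left ?_ hω.le
    have hlog : 0 ≤ Real.log 2 := Real.log_nonneg (by norm_num)
    have h3 : ∑ v, Pool.Agent.H49.Ent.cond p (fun v => (cel (κ + K) (pos φ u (N v)), t v))
        (cel (κ + K) (pos φ u (N ω)), t ω) v * (if pos φ u (N v) ∉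
          box (cel (κ + K) (pos φ u (N ω))) (κ + K) (C₁ * 2 ^ κ) then 1 else 0) =
        Pr (Pool.Agent.H49.Ent.cond p (fun v => (cel (κ + K) (pos φ u (N v)), t v))
        (cel (κ + K) (pos φ u (N ω)), t ω))
        {v | pos φ u (N v) ∉ box (cel (κ + K) (pos φ u (N ω))) (κ + K) (C₁ * 2 ^ κ)} := by
      rw [Pool.KAF.Pr_eq]
      refine Finset.sum_congr rfl fun v _ => ?_
      by_cases h4 : pos φ u (N v) ∉ box (cel (κ + K) (pos φ u (N ω))) (κ + K) (C₁ * 2 ^ κ)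
      · rw [if_pos h4, mul_one, if_pos]
        exact h4
      · rw [if_neg h4, mul_zero, if_neg]
        exact h4
    rw [h3]
    have h5 : 0 ≤ Pr (Pool.Agent.H49.Ent.cond p (fun v => (cel (κ + K) (pos φ u (N v)), t v))
        (cel (κ + K) (pos φ u (N ω)), t ω))
        {v | pos φ u (N v) ∉ box (cel (κ + K) (pos φ u (N ω))) (κ + K) (C₁ * 2 ^ κ)} :=
      Pr_nonneg' (fun v => cond_nonneg hp.nonneg _ _ v) _
    split_ifs with h6
    · positivity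
    · have h7 := not_le.mp h6
      linarith
  refine (Finset.sum_le_sum fun u _ => h1 u).trans ?_
  rw [← Finset.mul_sum, Finset.sum_comm]
  have h2 : ∀ ω, ∑ u : Fin c → Fin (2 ^ X), p ω *
      (if pos φ u (N ω) ∉ box (cel (κ + K) (pos φ u (N ω))) (κ + K) (C₁ * 2 ^ κ)
        then 1 else 0) ≤ p ω * (2 ^ (c * X) * (c * (2 * C₁ / 2 ^ K))) := by
    intro ω
    rw [← Finset.mul_sum]
    refine mul_le_mul_of_nonneg_left ?_ (hp.nonneg ω)
    have h3 := hNV X (φ + (κ + K)) (C₁ * 2 ^ (φ + κ)) (N ω) hX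
    refine le_trans (Finset.sum_le_sum fun u _ => ?_) (h3.trans (le_of_eq ?_))
    · by_cases h4 : pos φ u (N ω) ∉ box (cel (κ + K) (pos φ u (N ω))) (κ + K) (C₁ * 2 ^ κ)
      · rw [if_pos h4, if_pos (near_of_not_box φ κ K C₁ u (N ω) h4)]
      · rw [if_neg h4]
        split_ifs <;> norm_num
    · congr 2
      push_cast
      rw [show φ + (κ + K) = (φ + κ) + K by ring, pow_add (2 : ℝ) (φ + κ) K]
      field_simp
  have h4 : ∑ ω, ∑ u : Fin c → Fin (2 ^ X), p ω *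
      (if pos φ u (N ω) ∉ box (cel (κ + K) (pos φ u (N ω))) (κ + K) (C₁ * 2 ^ κ)
        then 1 else 0) ≤ 2 ^ (c * X) * (c * (2 * C₁ / 2 ^ K)) := by
    refine (Finset.sum_le_sum fun ω _ => h2 ω).trans (le_of_eq ?_)
    rw [← Finset.sum_mul, hp.sum_one, one_mul]
  have hl0 : 0 ≤ Real.log 2 := Real.log_nonneg (by norm_num)
  have hl1 : Real.log 2 ≤ 1 := by
    have := Real.log_two_lt_d9
    linarith
  have h5 : 2 * ((c : ℝ) * K * Real.log 2) ≤ 2 * (c * K) := by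
    have : (0 : ℝ) ≤ c * K := by positivity
    nlinarith
  refine (mul_le_mul_of_nonneg_left h4 (by positivity)).trans ?_
  refine (mul_le_mul_of_nonneg_right h5 (by positivity)).trans (le_of_eq ?_)
  ring

end

end Pool.OCM.RV
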