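import Pool.Agent.H86.OCM.RasV

/-!
# Rows which are not full are not hit, in any codimension: the sum over the rows
-/

set_option autoImplicit false

namespace Pool.OCM.RV

open Finset Real
open Pool.Agent.H49.Ent Pool.Agent.H32.Dense Pool.STK Pool.KAF Pool.KAL Pool.KX Pool.KAL.TI
open Pool.OC
open Pool.OC.RS (mi mi_eq mi_eq' mi_comm mi_nonneg mi_congr mi_chain mi_mono mi_mono_left mi_ctx
  mi_sum_one mi_sum_two sum_classes CH_mono_ctx div_div_two sum_s5 Pr_nonneg')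

/-- Constants for which the faces do not matter. -/
theorem face_const (c C₁ : ℕ) {ε : ℝ} (hε : 0 < ε) :
    ∃ K₀ : ℕ, ∀ K ≥ K₀, 4 * (c : ℝ) * c * C₁ * ((K : ℝ) / 2 ^ K) ≤ ε := by
  have h1 : Filter.Tendsto (fun n : ℕ => (n : ℝ) * (1 / 2 : ℝ) ^ n) Filter.atTop (nhds 0) :=
    tendsto_self_mul_const_pow_of_lt_one (by norm_num) (by norm_num)
  have h2 : Filter.Tendsto (fun n : ℕ => 4 * (c : ℝ) * c * C₁ * ((n : ℝ) * (1 / 2 : ℝ) ^ n))
      Filter.atTop (nhds 0) := by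
    have := h1.const_mul (4 * (c : ℝ) * c * C₁)
    rwa [mul_zero] at this
  obtain ⟨K₀, hK₀⟩ := Filter.eventually_atTop.mp (h2.eventually (gt_mem_nhds hε))
  refine ⟨K₀, fun K hK => ?_⟩
  have h3 := (hK₀ K hK).le
  refine le_trans (le_of_eq ?_) h3
  rw [one_div, inv_pow]
  rfl

open Classical in
theorem rasV_r {c : ℕ} (hCV : CarryV c) (hNV : NearV c) (k k1 C₁ : ℕ) (C₀ ε : ℝ) (hε : 0 < ε)
    (hε1 : ε ≤ 1) (Kc : ℕ) (e₁ : ℝ) (he₁ : 0 < e₁) (hL : LATat c (k + k1 + 2) Kc C₀ C₁ e₁)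
    (hKc : 4 * (c : ℝ) * c * C₁ * ((Kc : ℝ) / 2 ^ Kc) ≤ ε / 16) :
    ∃ kb K : ℕ, k + k1 < K ∧ ∀ Fc : ℕ, ∃ (δ : ℝ) (r₀ : ℕ), 0 < δ ∧ ∀ (c₀ X : ℕ)
      (Ω χ ν γ O θ : Type) [Fintype Ω] (p : Ω → ℝ) (N₁ N₂ : Ω → Fin c → ℤ) (t : Ω → θ)
      (x : Ω → χ) (V : Ω → ν) (Z : Ω → Fin c → ℝ) (Γ : ℕ → Ω → γ) (o : ℕ → Ω → O)
      (F : Finset O),
      IsLaw p → Det p x t →
      (∀ ω, 0 < p ω → ∀ i, |(N₂ ω i : ℝ) - N₁ ω i - 2 ^ X * Z ω i| ≤ 2 ^ c₀) →
      (∀ r, Det p (fun ω => (Γ (r + 1) ω, x ω)) (Γ r)) →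
      (∀ r, Det p (fun ω => (V ω, x ω)) (Γ r)) → (∀ r ω, o r ω ∈ F) → F.card ≤ Fc →
      (∀ r, Det p (fun ω => (Γ (r + K) ω, x ω)) (o r)) →
      (∀ r ω ω', 0 < p ω → 0 < p ω' → Γ r ω = Γ r ω' → x ω = x ω' → ∀ i,
        |Z ω i - Z ω' i| ≤ 2 ^ k / 2 ^ r) →
      (∀ r ω ω', 0 < p ω → 0 < p ω' → Γ r ω = Γ r ω' → x ω = x ω' → o r ω = o r ω' → ∀ i,
        |Z ω i - Z ω' i| ≤ 2 ^ k / 2 ^ (r + K)) →
      mi p N₁ V x ≤ δ * X → mi p N₂ V x ≤ δ * X → mi p N₂ x t ≤ δ * X →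
      ∑ r ∈ Finset.Ico r₀ (X + 1 - r₀ - c₀), ∑ u : Fin c → Fin (2 ^ X), ∑ ω, p ω *
        ((if low p (sh N₂ u) t (X - r + (k + 1)) Kc (C₀ + 1) ω then 1 else 0) *
        ∑ v, Pool.Agent.H49.Ent.cond p (fun v => (Γ r v, x v)) (Γ r ω, x ω) v *
        (if 1 / 2 ^ (r + k1) ≤ |∑ i, rcv p N₂ t kb (k + k1 + 2) Kc e₁
          (X - (r + k1 + kb + 1)) u (N₂ ω) (t ω) i * (Z ω i - Z v i)| then 1 else 0)) ≤
        2 ^ (c * X) * (ε * X) := by
  obtain ⟨kb₀, hkb₀⟩ := rav_unif he₁ hL (ε := ε / 4) (by positivity) (by linarith only [hε1])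
  set kb := max kb₀ 3 with hkb
  set K := k + k1 + kb + 1 with hK
  refine ⟨kb, K, by omega, fun Fc => ?_⟩
  set ε₀ := ε / 4 with hε₀
  have hε₀0 : 0 < ε₀ := by positivity
  obtain ⟨e, he, hRA'⟩ := hkb₀ Fc
  have hRA : RAVat c kb (k + k1 + 2) Kc Fc C₀ C₁ ε₀ e e₁ := hRA' kb (le_max_left _ _)
  set a := ε / 8 with ha
  have ha0 : 0 < a := by positivity
  set Mx := 3 / e + 1 / a with hMx
  have hMx0 : 0 < Mx := by positivity
  obtain ⟨k12', hk12'⟩ := pow_unbounded_of_one_lt (16 * Mx * (c * 8) / ε) (by norm_num : (1 : ℝ) < 2)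
  set k12 := k12' + 2 with hk12
  have hκ : c * (16 * Mx / 2 ^ k12) ≤ ε / 8 := by
    rw [div_lt_iff₀ hε] at hk12'
    have h1 : (2 : ℝ) ^ k12' ≤ 2 ^ k12 := pow_le_pow_right₀ (by norm_num) (by omega)
    rw [mul_div_assoc', div_le_div_iff₀ (by positivity) (by norm_num)]
    nlinarith only [hk12', hε, h1]
  set cc := k + Kc + k12 with hcc
  set Q := cc + k1 + kb + 1 + K with hQ
  have hQ0 : 0 < Q := by omega
  set M' := 4 / e + 1 / a with hM'
  have hM'0 : 0 < M' := by positivity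
  set δ := ε / (8 * M' * Q) with hδ
  have hQ0' : (0 : ℝ) < Q := by exact_mod_cast hQ0
  have hδ0 : 0 < δ := by positivity
  refine ⟨δ, Q + 1, hδ0, ?_⟩
  intro c₀ X Ω χ ν γ O θ _ p N₁ N₂ t x V Z Γ o F hp htx hN hΓ hV hoF hFc hoΓ hcell hfine hi1 hi2 hi3
  set r₀ := Q + 1 with hr₀
  exact by
   set I := Finset.Ico r₀ (X + 1 - r₀ - c₀) with hI
   have hIr : ∀ r ∈ I, r₀ ≤ r ∧ r + r₀ + c₀ ≤ X := by
     intro r hr
     have := Finset.mem_Ico.mp hr
     omega
   -- the terms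
   set S1 : ℕ → (Fin c → Fin (2 ^ X)) → ℝ := fun r u =>
     mi p (rc (sh N₁ u) (X - (r + Q) + cc)) (Γ (r + Q))
       (fun ω => (rc (sh N₁ u) (X - r + cc) ω, (Γ r ω, x ω))) with hS1
   set S2 : ℕ → (Fin c → Fin (2 ^ X)) → ℝ := fun r u =>
     mi p (rc (sh N₂ u) (X - (r + Q) + cc)) (Γ (r + Q))
       (fun ω => (rc (sh N₂ u) (X - r + cc) ω, (Γ r ω, x ω))) with hS2
   set S3 : ℕ → (Fin c → Fin (2 ^ X)) → ℝ := fun r u =>
     mi p (rc (sh N₂ u) (X - (r + Q) + (k + 1 + Kc))) x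
       (fun ω => (rc (sh N₂ u) (X - r + (k + 1 + Kc)) ω, t ω)) with hS3
   set S4 : ℕ → (Fin c → Fin (2 ^ X)) → ℝ := fun r u =>
     mi p (rc (sh N₂ u) (X - (r + Q) + (k + 1 + Kc))) V
       (fun ω => (rc (sh N₂ u) (X - r + (k + 1 + Kc)) ω, x ω)) with hS4
   set S5 : ℕ → ℝ := fun r => mi p (Γ (r + Q)) N₁ (fun ω => (Γ r ω, x ω)) with hS5
   set φ : ℕ → ℕ := fun r => X - (r + k1 + kb + 1) with hφ
   set c1 : ℕ → (Fin c → Fin (2 ^ X)) → ℝ := fun r u => CH p (rc (sh N₂ u) (X - r + cc))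
       (fun ω => (rc (sh N₁ u) (φ r) ω, (Γ r ω, x ω))) with hc1
   set c2 : ℕ → (Fin c → Fin (2 ^ X)) → ℝ := fun r u => CH p (rc (sh N₁ u) (X - r + cc))
       (fun ω => (rc (sh N₂ u) (φ r) ω, (Γ r ω, x ω))) with hc2
   set c3 : ℕ → (Fin c → Fin (2 ^ X)) → ℝ := fun r u => CH p (rc (sh N₁ u) (X - r + cc))
       (fun ω => (rc (sh N₂ u) (X - r + (k + 1 + Kc)) ω, (Γ r ω, x ω))) with hc3
   set fa : ℕ → (Fin c → Fin (2 ^ X)) → ℝ := fun r u => ∑ ω, p ω *
     (if faceOK p N₂ t (kb + (k + k1 + 2)) Kc C₁ (X - (r + k1 + kb + 1)) u ω then 0 else 1) with hfa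
   have hp0 := hp.nonneg
   have hnest : ∀ (r i : ℕ), Det p (fun ω => (Γ (r + i) ω, x ω)) (Γ r) := by
     intro r i
     induction i with
     | zero => exact fun ω ω' _ _ h => (Prod.ext_iff.mp h).1
     | succ i ih =>
       intro ω ω' a b h
       exact ih ω ω' a b (Prod.ext (hΓ (r + i) ω ω' a b h) (Prod.ext_iff.mp h).2)
   -- the step
   exact by
    set f : ℕ → (Fin c → Fin (2 ^ X)) → ℝ := fun r u => ∑ ω, p ω *
          ((if low p (sh N₂ u) t (X - r + (k + 1)) Kc (C₀ + 1) ω then 1 else 0) *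
          ∑ v, Pool.Agent.H49.Ent.cond p (fun v => (Γ r v, x v)) (Γ r ω, x ω) v *
          (if 1 / 2 ^ (r + k1) ≤ |∑ i, rcv p N₂ t kb (k + k1 + 2) Kc e₁
            (X - (r + k1 + kb + 1)) u (N₂ ω) (t ω) i * (Z ω i - Z v i)| then 1 else 0)) with hf
    have hstep : ∀ r ∈ I, ∀ u, f r u ≤ (ε₀ + a) + ((S1 r u + S2 r u + S3 r u + S4 r u) / e +
        S5 r / a) + ((c1 r u + c2 r u + c3 r u) / e + c1 r u / a) + fa r u := by
      intro r hr u
      obtain ⟨hr1, hr2⟩ := hIr r hr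
      have h0 := stepV hp (N₁ := N₁) (N₂ := N₂) (Z := Z) (t := t) (x := x) (Γ := Γ r) (o := o r)
        (F := F) (X := X) (r := r) (Ξ := X - r + cc) (c₀ := c₀) hRA he hε₀0.le htx
        (hoF r) hFc hN (by omega) le_rfl (le_max_right _ _) (hcell r) (hfine r) u ha0
      -- the faces
      have hface : f r u ≤ ∑ ω, p ω * ((if low p (sh N₂ u) t (X - r + (k + 1)) Kc (C₀ + 1) ω ∧
          faceOK p N₂ t (kb + (k + k1 + 2)) Kc C₁ (X - (r + k1 + kb + 1)) u ω then 1 else 0) *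
        ∑ v, Pool.Agent.H49.Ent.cond p (fun v => (Γ r v, x v)) (Γ r ω, x ω) v *
          (if 1 / 2 ^ (r + k1) ≤ |∑ i, rcv p N₂ t kb (k + k1 + 2) Kc e₁ (X - (r + k1 + kb + 1)) u
            (N₂ ω) (t ω) i * (Z ω i - Z v i)| then 1 else 0)) + fa r u := by
        simp only [hf, hfa]
        rw [← Finset.sum_add_distrib]
        refine Finset.sum_le_sum fun ω _ => ?_
        rcases (hp0 ω).eq_or_lt with hω | hω
        · rw [← hω]
          simp
        rw [← mul_add]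
        refine mul_le_mul_of_nonneg_left ?_ hω.le
        set Y := ∑ v, Pool.Agent.H49.Ent.cond p (fun v => (Γ r v, x v)) (Γ r ω, x ω) v *
          (if 1 / 2 ^ (r + k1) ≤ |∑ i, rcv p N₂ t kb (k + k1 + 2) Kc e₁ (X - (r + k1 + kb + 1)) u
            (N₂ ω) (t ω) i * (Z ω i - Z v i)| then (1 : ℝ) else 0) with hY
        have hq := isLaw_cond hp (fun v => (Γ r v, x v)) hω
        have hY0 : 0 ≤ Y := Finset.sum_nonneg fun v _ => mul_nonneg (hq.nonneg v) (by
          split_ifs <;> norm_num)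
        have hY1 : Y ≤ 1 := by
          rw [← hq.sum_one]
          refine Finset.sum_le_sum fun v _ => ?_
          refine mul_le_of_le_one_right (hq.nonneg v) ?_
          split_ifs <;> norm_num
        by_cases q1 : low p (sh N₂ u) t (X - r + (k + 1)) Kc (C₀ + 1) ω
        · by_cases q2 : faceOK p N₂ t (kb + (k + k1 + 2)) Kc C₁ (X - (r + k1 + kb + 1)) u ω
          · rw [if_pos q1, if_pos (And.intro q1 q2), if_pos q2]
            linarith only
          · rw [if_pos q1, if_neg (fun h => q2 h.2), if_neg q2]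
            linarith only [hY1]
        · rw [if_neg q1, if_neg (fun h => q1 h.1)]
          split_ifs <;> linarith only
      -- the cells
      have hoQ : Det p (fun ω => (Γ (r + Q) ω, (Γ r ω, x ω))) (o r) := by
        intro ω ω' h1 h2 h
        simp only [Prod.mk.injEq] at h
        have e1 : r + Q = (r + K) + (Q - K) := by omega
        have h3 := hnest (r + K) (Q - K) ω ω' h1 h2 (by
          rw [← e1]
          exact Prod.ext h.1 h.2.2)
        exact hoΓ r ω ω' h1 h2 (Prod.ext h3 h.2.2)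
      have hφQ : X - (r + Q) + cc ≤ φ r := by
        rw [hφ]
        show X - (r + Q) + cc ≤ X - (r + k1 + kb + 1)
        omega
      have k1' := m1 hp0 (C₁ := rc (sh N₁ u) (X - r + cc)) (C₂ := rc (sh N₂ u) (X - r + cc))
        (A := rc (sh N₁ u) (φ r)) (A' := rc (sh N₁ u) (X - (r + Q) + cc))
        (g := fun ω => (Γ r ω, x ω))
        (g' := Γ (r + Q)) (o := o r) (fun ω ω' _ _ h => rc_le N₁ u hφQ h) hoQ
      have k2' := m2 hp0 (C₁ := rc (sh N₁ u) (X - r + cc)) (C₂ := rc (sh N₂ u) (X - r + cc))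
        (A := rc (sh N₂ u) (φ r)) (A' := rc (sh N₂ u) (X - (r + Q) + cc))
        (g := fun ω => (Γ r ω, x ω))
        (g' := Γ (r + Q)) (o := o r) (fun ω ω' _ _ h => rc_le N₂ u hφQ h) hoQ
      have k3' := m3 hp0 (C₁ := rc (sh N₁ u) (X - r + cc)) (C₂ := rc (sh N₂ u) (X - r + cc))
        (R := rc (sh N₂ u) (φ r)) (R' := rc (sh N₂ u) (X - (r + Q) + (k + 1 + Kc)))
        (M := rc (sh N₂ u) (X - r + (k + 1) + Kc)) (t := t) (x := x) (Γ := Γ r) (V := V) htx
        (fun ω ω' _ _ h => rc_le N₂ u (by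
          rw [hφ]
          show X - (r + Q) + (k + 1 + Kc) ≤ X - (r + k1 + kb + 1)
          omega) h) (fun ω ω' _ _ h => rc_le N₂ u (by omega) h)
        (hV r)
      have k4' := t1 hp0 (C₁ := rc (sh N₁ u) (X - r + cc)) (C₂ := rc (sh N₂ u) (X - r + cc))
        (A := rc (sh N₁ u) (φ r)) (N := N₁) (g := fun ω => (Γ r ω, x ω)) (g' := Γ (r + Q))
        (o := o r)
        (fun ω ω' _ _ h => rc_le N₁ u (by
          rw [hφ]
          show X - (r + k1 + kb + 1) ≤ X - r + cc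
          omega) h)
        (fun ω ω' _ _ h => rc_of N₁ u _ h) hoQ
      have e2 : X - r + (k + 1) + Kc = X - r + (k + 1 + Kc) := by omega
      rw [e2] at k3' h0
      have h1 : f r u ≤ (ε₀ + ((S1 r u + c1 r u) + (S2 r u + c2 r u) + (S3 r u + S4 r u + c3 r u)) / e) +
          (a + (S5 r + c1 r u) / a) + fa r u := by
        refine hface.trans (add_le_add_left (h0.trans ?_) _)
        gcongr
      refine h1.trans (le_of_eq ?_)
      field_simp
      ring
    -- the informations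
    exact by
     have hS : ∀ u, ∑ r ∈ I, ((S1 r u + S2 r u + S3 r u + S4 r u) / e + S5 r / a) ≤ ε / 8 * X := by
       intro u
       have hsub : I ⊆ range (X + 1) := by
         intro r hr
         have := hIr r hr
         rw [Finset.mem_range]
         omega
       have hnn : ∀ r, 0 ≤ (S1 r u + S2 r u + S3 r u + S4 r u) / e + S5 r / a := by
         intro r
         have n1 : 0 ≤ S1 r u := mi_nonneg hp0 _ _ _
         have n2 : 0 ≤ S2 r u := mi_nonneg hp0 _ _ _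
         have n3 : 0 ≤ S3 r u := mi_nonneg hp0 _ _ _
         have n4 : 0 ≤ S4 r u := mi_nonneg hp0 _ _ _
         have n5 : 0 ≤ S5 r := mi_nonneg hp0 _ _ _
         positivity
       refine (Finset.sum_le_sum_of_subset_of_nonneg hsub fun r _ _ => hnn r).trans ?_
       rw [Finset.sum_add_distrib, ← Finset.sum_div, ← Finset.sum_div, Finset.sum_add_distrib,
         Finset.sum_add_distrib, Finset.sum_add_distrib]
       have b1 : ∑ r ∈ range (X + 1), S1 r u ≤ Q * (δ * X) :=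
         (sum_s1 hp0 N₁ V x Γ hΓ hV X cc u hQ0 (X + 1)).trans
           (mul_le_mul_of_nonneg_left hi1 hQ0'.le)
       have b2 : ∑ r ∈ range (X + 1), S2 r u ≤ Q * (δ * X) :=
         (sum_s1 hp0 N₂ V x Γ hΓ hV X cc u hQ0 (X + 1)).trans
           (mul_le_mul_of_nonneg_left hi2 hQ0'.le)
       have b3 : ∑ r ∈ range (X + 1), S3 r u ≤ Q * (δ * X) :=
         (sum_s3 hp0 N₂ x t X (k + 1 + Kc) u hQ0 (X + 1)).trans
           (mul_le_mul_of_nonneg_left hi3 hQ0'.le)
       have b4 : ∑ r ∈ range (X + 1), S4 r u ≤ Q * (δ * X) :=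
         (sum_s3 hp0 N₂ V x X (k + 1 + Kc) u hQ0 (X + 1)).trans
           (mul_le_mul_of_nonneg_left hi2 hQ0'.le)
       have b5 : ∑ r ∈ range (X + 1), S5 r ≤ Q * (δ * X) :=
         (sum_s5 hp0 N₁ V x Γ hΓ hV hQ0 (X + 1)).trans
           (mul_le_mul_of_nonneg_left hi1 hQ0'.le)
       have b6 : (∑ r ∈ range (X + 1), S1 r u + ∑ r ∈ range (X + 1), S2 r u +
           ∑ r ∈ range (X + 1), S3 r u + ∑ r ∈ range (X + 1), S4 r u) / e +
           (∑ r ∈ range (X + 1), S5 r) / a ≤ (4 * (Q * (δ * X))) / e + (Q * (δ * X)) / a := by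
         gcongr
         linarith only [b1, b2, b3, b4]
       refine b6.trans (le_of_eq ?_)
       rw [hδ]
       have e3 : 4 * (Q * (ε / (8 * M' * Q) * X)) / e + Q * (ε / (8 * M' * Q) * X) / a =
           M' * (Q * (ε / (8 * M' * Q) * X)) := by
         rw [hM']
         field_simp
       rw [e3]
       field_simp
     exact by
      have hcard2 : ((univ : Finset (Fin c → Fin (2 ^ X))).card : ℝ) = 2 ^ (c * X) := by
        rw [Finset.card_univ, Fintype.card_fun, Fintype.card_fin, Fintype.card_fin]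
        push_cast
        rw [← pow_mul, mul_comm]
      -- the carries
      have hC : ∀ r ∈ I, ∑ u, ((c1 r u + c2 r u + c3 r u) / e + c1 r u / a) ≤
          2 ^ (c * X) * (ε / 8) := by
        intro r hr
        obtain ⟨hr1, hr2⟩ := hIr r hr
        have hΞ : X - r + cc ≤ X := by omega
        have hL' : 2 ^ (X - r + k + Kc + 2) ≤ 2 ^ (X - r + cc) :=
          Nat.pow_le_pow_right (by norm_num) (by omega)
        -- positions of the same cell
        have near : ∀ ω ω', 0 < p ω → 0 < p ω' → Γ r ω = Γ r ω' → x ω = x ω' → ∀ i,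
            |((N₂ ω i : ℝ) - N₁ ω i) - (N₂ ω' i - N₁ ω' i)| ≤ 2 ^ (X - r + k + 1) := by
          intro ω ω' h1 h2 h3 h4 i
          have a1 := hN ω h1 i
          have a2 := hN ω' h2 i
          have a3 := hcell r ω ω' h1 h2 h3 h4 i
          have a4 : |(2 : ℝ) ^ X * Z ω i - 2 ^ X * Z ω' i| ≤ 2 ^ (X - r + k) := by
            rw [← mul_sub, abs_mul, abs_of_pos (by positivity : (0 : ℝ) < 2 ^ X)]
            refine (mul_le_mul_of_nonneg_left a3 (by positivity)).trans (le_of_eq ?_)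
            rw [mul_div_assoc', div_eq_iff (by positivity), ← pow_add, ← pow_add]
            congr 1
            omega
          have a5 : (2 : ℝ) ^ (c₀ + 1) ≤ 2 ^ (X - r + k) :=
            pow_le_pow_right₀ (by norm_num) (by omega)
          have a6 : (2 : ℝ) ^ (X - r + k + 1) = 2 * 2 ^ (X - r + k) := pow_succ' _ _
          have a7 : (2 : ℝ) ^ (c₀ + 1) = 2 * 2 ^ c₀ := pow_succ' _ _
          rw [abs_le] at a1 a2 a4 ⊢
          constructor <;> linarith only [a1, a2, a4, a5, a6, a7, a1.1, a1.2, a2.1, a2.2, a4.1, a4.2]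
        have hpow1 : (2 : ℝ) ^ (X - r + k + 1) ≤ 2 ^ (X - r + k + Kc + 1) :=
          pow_le_pow_right₀ (by norm_num) (by omega)
        have hpow2 : (2 : ℝ) ^ (φ r) ≤ 2 ^ (X - r + k + Kc + 1) := by
          refine pow_le_pow_right₀ (by norm_num) ?_
          rw [hφ]
          show X - (r + k1 + kb + 1) ≤ _
          omega
        have hpow3 : (2 : ℝ) ^ (X - r + k + Kc + 2) = 2 * 2 ^ (X - r + k + Kc + 1) := pow_succ' _ _
        have d1 := hCV Ω ((Fin c → ℤ) × (γ × χ)) p N₂ X (X - r + cc) (2 ^ (X - r + k + Kc + 2))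
          (fun u ω => (rc (sh N₁ u) (φ r) ω, (Γ r ω, x ω))) hp hΞ hL'
          (fun u ω ω' h1 h2 h i => by
            simp only [Prod.mk.injEq] at h
            have a1 := near ω ω' h1 h2 h.2.1 h.2.2 i
            have a2 := rc_near N₁ u (φ r) h.1 i
            have a3 : |(N₁ ω i : ℝ) - N₁ ω' i| ≤ 2 ^ (φ r) := by exact_mod_cast a2
            have a4 : |(N₂ ω i : ℝ) - N₂ ω' i| ≤ 2 ^ (X - r + k + Kc + 2) := by
              rw [abs_le] at a1 a3 ⊢
              constructor <;> linarith only [hpow1, hpow2, hpow3, a1, a3, a1.1, a1.2, a3.1, a3.2]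
            exact_mod_cast a4)
        have d2 := hCV Ω ((Fin c → ℤ) × (γ × χ)) p N₁ X (X - r + cc) (2 ^ (X - r + k + Kc + 2))
          (fun u ω => (rc (sh N₂ u) (φ r) ω, (Γ r ω, x ω))) hp hΞ hL'
          (fun u ω ω' h1 h2 h i => by
            simp only [Prod.mk.injEq] at h
            have a1 := near ω ω' h1 h2 h.2.1 h.2.2 i
            have a2 := rc_near N₂ u (φ r) h.1 i
            have a3 : |(N₂ ω i : ℝ) - N₂ ω' i| ≤ 2 ^ (φ r) := by exact_mod_cast a2
            have a4 : |(N₁ ω i : ℝ) - N₁ ω' i| ≤ 2 ^ (X - r + k + Kc + 2) := by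
              rw [abs_le] at a1 a3 ⊢
              constructor <;> linarith only [hpow1, hpow2, hpow3, a1, a3, a1.1, a1.2, a3.1, a3.2]
            exact_mod_cast a4)
        have d3 := hCV Ω ((Fin c → ℤ) × (γ × χ)) p N₁ X (X - r + cc) (2 ^ (X - r + k + Kc + 2))
          (fun u ω => (rc (sh N₂ u) (X - r + (k + 1 + Kc)) ω, (Γ r ω, x ω))) hp hΞ hL'
          (fun u ω ω' h1 h2 h i => by
            simp only [Prod.mk.injEq] at h
            have a1 := near ω ω' h1 h2 h.2.1 h.2.2 i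
            have a2 := rc_near N₂ u (X - r + (k + 1 + Kc)) h.1 i
            have a3 : |(N₂ ω i : ℝ) - N₂ ω' i| ≤ 2 ^ (X - r + (k + 1 + Kc)) := by exact_mod_cast a2
            have a5 : X - r + (k + 1 + Kc) = X - r + k + Kc + 1 := by omega
            rw [a5] at a3
            have a4 : |(N₁ ω i : ℝ) - N₁ ω' i| ≤ 2 ^ (X - r + k + Kc + 2) := by
              rw [abs_le] at a1 a3 ⊢
              constructor <;> linarith only [hpow1, hpow3, a1, a3, a1.1, a1.2, a3.1, a3.2]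
            exact_mod_cast a4)
        have hval : (2 : ℝ) ^ (c * X) *
            (c * (4 * ((2 ^ (X - r + k + Kc + 2) : ℕ) : ℝ) / 2 ^ (X - r + cc))) =
            2 ^ (c * X) * (c * (16 / 2 ^ k12)) := by
          have e4 : X - r + cc = (X - r + k + Kc + 2) + k12' := by omega
          rw [e4, hk12]
          push_cast
          rw [pow_add (2 : ℝ) (X - r + k + Kc + 2) k12', pow_add (2 : ℝ) k12' 2]
          field_simp
          ring
        rw [hval] at d1 d2 d3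
        rw [Finset.sum_add_distrib, ← Finset.sum_div, ← Finset.sum_div, Finset.sum_add_distrib,
          Finset.sum_add_distrib]
        have b6 : (∑ u, c1 r u + ∑ u, c2 r u + ∑ u, c3 r u) / e + (∑ u, c1 r u) / a ≤
            (3 * (2 ^ (c * X) * (c * (16 / 2 ^ k12)))) / e + (2 ^ (c * X) * (c * (16 / 2 ^ k12))) / a := by
          have g1 : ∑ u, c1 r u ≤ 2 ^ (c * X) * (c * (16 / 2 ^ k12)) := d1
          have g2 : ∑ u, c2 r u ≤ 2 ^ (c * X) * (c * (16 / 2 ^ k12)) := d2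
          have g3 : ∑ u, c3 r u ≤ 2 ^ (c * X) * (c * (16 / 2 ^ k12)) := d3
          gcongr
          linarith only [d1, d2, d3]
        refine b6.trans ?_
        have e5 : (3 * ((2 : ℝ) ^ (c * X) * (c * (16 / 2 ^ k12)))) / e +
            (2 ^ (c * X) * (c * (16 / 2 ^ k12))) / a = 2 ^ (c * X) * (c * (16 * Mx / 2 ^ k12)) := by
          rw [hMx]
          field_simp
        rw [e5]
        exact mul_le_mul_of_nonneg_left hκ (by positivity)
      -- the faces
      exact by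
       have hFA : ∀ r ∈ I, ∑ u, fa r u ≤ 2 ^ (c * X) * (ε / 16) := by
         intro r hr
         obtain ⟨hr1, hr2⟩ := hIr r hr
         refine (face_sum hNV hp N₂ t (kb + (k + k1 + 2)) Kc C₁ X (X - (r + k1 + kb + 1))
           (by omega)).trans ?_
         exact mul_le_mul_of_nonneg_left hKc (by positivity)
       have t1' : ∑ r ∈ I, ∑ u, f r u ≤
           ∑ r ∈ I, ∑ u, ((ε₀ + a) + ((S1 r u + S2 r u + S3 r u + S4 r u) / e +
           S5 r / a) + ((c1 r u + c2 r u + c3 r u) / e + c1 r u / a) + fa r u) :=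
         Finset.sum_le_sum fun r hr => Finset.sum_le_sum fun u _ => hstep r hr u
       refine t1'.trans ?_
       have t2' : ∀ r ∈ I, ∑ u, ((ε₀ + a) + ((S1 r u + S2 r u + S3 r u + S4 r u) / e +
           S5 r / a) + ((c1 r u + c2 r u + c3 r u) / e + c1 r u / a) + fa r u) ≤
           2 ^ (c * X) * (ε₀ + a + ε / 8 + ε / 16) +
             ∑ u, ((S1 r u + S2 r u + S3 r u + S4 r u) / e + S5 r / a) := by
         intro r hr
         rw [Finset.sum_add_distrib, Finset.sum_add_distrib, Finset.sum_add_distrib, Finset.sum_const,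
           nsmul_eq_mul, hcard2]
         have h1 := hC r hr
         have h2 := hFA r hr
         linarith only [h1, h2]
       refine (Finset.sum_le_sum t2').trans ?_
       rw [Finset.sum_add_distrib, Finset.sum_comm (s := I), Finset.sum_const, nsmul_eq_mul]
       have t3' : ∑ u, ∑ r ∈ I, ((S1 r u + S2 r u + S3 r u + S4 r u) / e + S5 r / a) ≤
           ∑ u : Fin c → Fin (2 ^ X), ε / 8 * X := Finset.sum_le_sum fun u _ => hS u
       rw [Finset.sum_const, nsmul_eq_mul, hcard2] at t3'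
       have hcard : (I.card : ℝ) ≤ X := by
         rw [hI, Nat.card_Ico]
         exact_mod_cast (by omega : X + 1 - r₀ - c₀ - r₀ ≤ X)
       have t4' : (I.card : ℝ) * (2 ^ (c * X) * (ε₀ + a + ε / 8 + ε / 16)) ≤
           X * (2 ^ (c * X) * (ε₀ + a + ε / 8 + ε / 16)) :=
         mul_le_mul_of_nonneg_right hcard (by positivity)
       exact by
        have t5' : ε₀ + a + ε / 8 + ε / 16 = 9 * ε / 16 := by
          rw [hε₀, ha]
          ring
        rw [t5'] at t4' ⊢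
        have t6' : 0 ≤ (2 : ℝ) ^ (c * X) * (X * ε) := by positivity
        nlinarith only [t3', t4', t6']

end Pool.OCM.RV
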