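import Pool.Agent.H86.OCM.Law

/-!
# Rows which are not full are not hit, in any codimension: one row
-/

set_option autoImplicit false

namespace Pool.OCM.RV

open Finset Real
open Pool.Agent.H49.Ent Pool.Agent.H32.Dense Pool.STK Pool.KAF Pool.KAL Pool.KX Pool.KAL.TI
open Pool.OC Pool.OC.RS

section

variable {Ω S T U O β θ χ γ : Type} [Fintype Ω] {c : ℕ}

theorem rc_rc (N : Ω → Fin c → ℤ) (φ κ : ℕ) : rc (rc N φ) κ = rc N (φ + κ) := by
  funext ω i
  unfold rc
  rw [div_div_two]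

theorem rowHV_rc (p : Ω → ℝ) (N : Ω → Fin c → ℤ) (φ κ K : ℕ) (τ : Ω → θ) (ω : Ω) :
    rowHV p (rc N φ) κ K τ ω = rowHV p N (φ + κ) K τ ω := by
  unfold rowHV
  simp only [rc_rc, ← add_assoc]

/-- The law of the position in the cell of the sample is not concentrated near the faces. -/
def faceOK (p : Ω → ℝ) (N : Ω → Fin c → ℤ) (t : Ω → θ) (κ K C₁ : ℕ) {X : ℕ} (φ : ℕ)
    (u : Fin c → Fin (2 ^ X)) (ω : Ω) : Prop :=
  c * K * Real.log 2 * Pr (Pool.Agent.H49.Ent.cond p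
    (fun v => (cel (κ + K) (pos φ u (N v)), t v)) (cel (κ + K) (pos φ u (N ω)), t ω))
    {v | pos φ u (N v) ∉ box (cel (κ + K) (pos φ u (N ω))) (κ + K) (C₁ * 2 ^ κ)} ≤ 1 / 2

open Classical in
/-- **Rows which are not full are not hit**, one row: from the cells of the context of the
position to the cells of the line. -/
theorem stepV {p : Ω → ℝ} (hp : IsLaw p) {N₁ N₂ : Ω → Fin c → ℤ} {Z : Ω → Fin c → ℝ} {t : Ω → θ}
    {x : Ω → χ} {Γ : Ω → γ} {o : Ω → O} {F : Finset O} {X r k k1 kb Kc Ξ c₀ K Fc C₁ : ℕ}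
    {C₀ ε₀ e e₁ : ℝ} (hRA : RAVat c kb (k + k1 + 2) Kc Fc C₀ C₁ ε₀ e e₁) (he : 0 < e)
    (hε₀ : 0 ≤ ε₀) (htx : Det p x t)
    (hoF : ∀ ω, o ω ∈ F) (hFc : F.card ≤ Fc)
    (hN : ∀ ω, 0 < p ω → ∀ i, |(N₂ ω i : ℝ) - N₁ ω i - 2 ^ X * Z ω i| ≤ 2 ^ c₀)
    (hX : r + k1 + kb + 1 + c₀ ≤ X) (hK : k + k1 + kb + 1 ≤ K) (hkb : 3 ≤ kb)
    (hcell : ∀ ω ω', 0 < p ω → 0 < p ω' → Γ ω = Γ ω' → x ω = x ω' → ∀ i,
      |Z ω i - Z ω' i| ≤ 2 ^ k / 2 ^ r)
    (hfine : ∀ ω ω', 0 < p ω → 0 < p ω' → Γ ω = Γ ω' → x ω = x ω' → o ω = o ω' → ∀ i,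
      |Z ω i - Z ω' i| ≤ 2 ^ k / 2 ^ (r + K)) (u : Fin c → Fin (2 ^ X)) {a : ℝ} (ha : 0 < a) :
    ∑ ω, p ω * ((if low p (sh N₂ u) t (X - r + (k + 1)) Kc (C₀ + 1) ω ∧
        faceOK p N₂ t (kb + (k + k1 + 2)) Kc C₁ (X - (r + k1 + kb + 1)) u ω then 1 else 0) *
      ∑ v, Pool.Agent.H49.Ent.cond p (fun v => (Γ v, x v)) (Γ ω, x ω) v *
        (if 1 / 2 ^ (r + k1) ≤ |∑ i, rcv p N₂ t kb (k + k1 + 2) Kc e₁ (X - (r + k1 + kb + 1)) u
          (N₂ ω) (t ω) i * (Z ω i - Z v i)| then 1 else 0)) ≤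
      (ε₀ + (mi p (rc (sh N₁ u) (X - (r + k1 + kb + 1))) o
          (fun ω => ((rc (sh N₁ u) Ξ ω, rc (sh N₂ u) Ξ ω), (Γ ω, x ω))) +
        mi p (rc (sh N₂ u) (X - (r + k1 + kb + 1))) o
          (fun ω => ((rc (sh N₁ u) Ξ ω, rc (sh N₂ u) Ξ ω), (Γ ω, x ω))) +
        mi p (rc (sh N₂ u) (X - (r + k1 + kb + 1)))
          (fun ω => ((rc (sh N₁ u) Ξ ω, rc (sh N₂ u) Ξ ω), (Γ ω, x ω)))
          (fun ω => (rc (sh N₂ u) (X - r + (k + 1) + Kc) ω, t ω))) / e) +
      (a + mi p o (fun ω => (rc (sh N₁ u) Ξ ω, rc (sh N₂ u) Ξ ω)) (fun ω => (Γ ω, x ω)) / a) := by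
  set n := r + k1 + kb + 1 with hn
  set φ := X - n with hφ
  set kd := k + k1 + 2 with hkd
  have hXφ : X = φ + n := by omega
  have hlev : X - r + (k + 1) = φ + (kb + kd) := by omega
  set C : Ω → (Fin c → ℤ) × (Fin c → ℤ) := fun ω => (rc (sh N₁ u) Ξ ω, rc (sh N₂ u) Ξ ω) with hC
  set g : Ω → γ × χ := fun ω => (Γ ω, x ω) with hg
  set b : Ω → ((Fin c → ℤ) × (Fin c → ℤ)) × (γ × χ) := fun ω => (C ω, g ω) with hb
  set X₁ : Ω → Fin c → ℤ := rc (sh N₁ u) φ with hX₁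
  set X₂ : Ω → Fin c → ℤ := rc (sh N₂ u) φ with hX₂
  have hcu : ∀ ω, ∑ i, |rcv p N₂ t kb kd Kc e₁ φ u (N₂ ω) (t ω) i| ≤ 1 := by
    intro ω
    rcases Nat.eq_zero_or_pos c with h0 | h0
    · subst h0
      simp
    · exact (covOf_unit h0 _ _).le
  -- the displacement
  set z : ((Fin c → ℤ) × (Fin c → ℤ)) × (γ × χ) → O → Fin c → ℤ := fun b' s i =>
    if h : ∃ v, 0 < p v ∧ g v = b'.2 ∧ o v = s then round ((2 : ℝ) ^ n * Z h.choose i) else 0
    with hz
  have hzs : ∀ (b' : ((Fin c → ℤ) × (Fin c → ℤ)) × (γ × χ)) (v : Ω), 0 < p v → g v = b'.2 →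
      ∀ i, |(2 : ℝ) ^ n * Z v i - z b' (o v) i| ≤ 3 / 2 := by
    intro b' v hv hgv i
    have hex : ∃ v', 0 < p v' ∧ g v' = b'.2 ∧ o v' = o v := ⟨v, hv, hgv, rfl⟩
    have h1 : z b' (o v) i = round ((2 : ℝ) ^ n * Z hex.choose i) := by
      rw [hz]
      exact dif_pos hex
    obtain ⟨k1', k2, k3⟩ := hex.choose_spec
    have h2 : g v = g hex.choose := hgv.trans k2.symm
    have h3 := hfine v hex.choose hv k1' (Prod.ext_iff.mp h2).1 (Prod.ext_iff.mp h2).2 k3.symm i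
    have h4 := abs_sub_round ((2 : ℝ) ^ n * Z hex.choose i)
    rw [h1]
    have h5 : |(2 : ℝ) ^ n * Z v i - 2 ^ n * Z hex.choose i| ≤ 1 := by
      rw [← mul_sub, abs_mul, abs_of_pos (by positivity : (0 : ℝ) < 2 ^ n)]
      refine (mul_le_mul_of_nonneg_left h3 (by positivity)).trans ?_
      rw [mul_div_assoc', div_le_one (by positivity), ← pow_add]
      exact pow_le_pow_right₀ (by norm_num) (by omega)
    have h6 := abs_sub_le ((2 : ℝ) ^ n * Z v i) (2 ^ n * Z hex.choose i)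
      (round ((2 : ℝ) ^ n * Z hex.choose i))
    linarith only [hex, h4, h5, h6]
  exact by
   have hZpos : ∀ ω v (cv : Fin c → ℝ), ∑ i, |cv i| ≤ 1 → 0 < p ω → 0 < p v → g v = g ω →
       1 / 2 ^ (r + k1) ≤ |∑ i, cv i * (Z ω i - Z v i)| →
       (2 : ℝ) ^ kb < |∑ i, cv i * ((z (b ω) (o ω) i - z (b ω) (o v) i : ℤ) : ℝ)| := by
     intro ω v cv hcv hω hv hgv hbig
     have h3 : (2 : ℝ) ^ (kb + 1) ≤ |∑ i, cv i * ((2 : ℝ) ^ n * Z ω i - 2 ^ n * Z v i)| := by
       have e1 : ∑ i, cv i * ((2 : ℝ) ^ n * Z ω i - 2 ^ n * Z v i) =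
           2 ^ n * ∑ i, cv i * (Z ω i - Z v i) := by
         rw [Finset.mul_sum]
         exact Finset.sum_congr rfl fun i _ => by ring
       rw [e1, abs_mul, abs_of_pos (by positivity : (0 : ℝ) < 2 ^ n)]
       refine le_trans (le_of_eq ?_) (mul_le_mul_of_nonneg_left hbig (by positivity))
       rw [mul_one_div, eq_div_iff (by positivity), ← pow_add]
       congr 1
       omega
     have h4 : (8 : ℝ) ≤ 2 ^ kb := by
       calc (8 : ℝ) = 2 ^ 3 := by norm_num
         _ ≤ 2 ^ kb := pow_le_pow_right₀ (by norm_num) hkb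
     have h5 : |∑ i, cv i * ((2 : ℝ) ^ n * Z ω i - 2 ^ n * Z v i) -
         ∑ i, cv i * ((z (b ω) (o ω) i - z (b ω) (o v) i : ℤ) : ℝ)| ≤ 3 := by
       rw [← Finset.sum_sub_distrib]
       refine (Finset.abs_sum_le_sum_abs _ _).trans ?_
       have e2 : ∀ i, |cv i * ((2 : ℝ) ^ n * Z ω i - 2 ^ n * Z v i) -
           cv i * ((z (b ω) (o ω) i - z (b ω) (o v) i : ℤ) : ℝ)| ≤ |cv i| * 3 := by
         intro i
         rw [← mul_sub, abs_mul]
         refine mul_le_mul_of_nonneg_left ?_ (abs_nonneg _)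
         have h1 := hzs (b ω) ω hω rfl i
         have h2 := hzs (b ω) v hv hgv i
         push_cast
         rw [abs_le] at h1 h2 ⊢
         constructor <;> linarith only [h1, h2, h1.1, h1.2, h2.1, h2.2]
       refine (Finset.sum_le_sum fun i _ => e2 i).trans ?_
       rw [← Finset.sum_mul]
       linarith only [hcv]
     rw [pow_succ] at h3
     have h6 := abs_sub_abs_le_abs_sub (∑ i, cv i * ((2 : ℝ) ^ n * Z ω i - 2 ^ n * Z v i))
       (∑ i, cv i * ((z (b ω) (o ω) i - z (b ω) (o v) i : ℤ) : ℝ))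
     linarith only [h3, h4, h5, h6]
   exact by
    have hZsmall : ∀ ω v, 0 < p ω → 0 < p v → b ω = b v → ∀ i,
        |z (b ω) (o ω) i - z (b ω) (o v) i| ≤ 2 ^ (kb + kd) := by
      intro ω v hω hv hbv i
      have hgv : g ω = g v := (Prod.ext_iff.mp hbv).2
      have h1 := hzs (b ω) ω hω rfl i
      have h2 := hzs (b ω) v hv hgv.symm i
      have h3 := hcell ω v hω hv (Prod.ext_iff.mp hgv).1 (Prod.ext_iff.mp hgv).2 i
      have h4 : |(2 : ℝ) ^ n * Z ω i - 2 ^ n * Z v i| ≤ 2 ^ (kb + k + k1 + 1) := by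
        rw [← mul_sub, abs_mul, abs_of_pos (by positivity : (0 : ℝ) < 2 ^ n)]
        refine (mul_le_mul_of_nonneg_left h3 (by positivity)).trans (le_of_eq ?_)
        rw [mul_div_assoc', div_eq_iff (by positivity), ← pow_add, ← pow_add]
        congr 1
        omega
      have h5 : (4 : ℝ) ≤ 2 ^ (kb + k + k1 + 1) := by
        calc (4 : ℝ) = 2 ^ 2 := by norm_num
          _ ≤ _ := pow_le_pow_right₀ (by norm_num) (by omega)
      have h6 : |((z (b ω) (o ω) i : ℤ) : ℝ) - z (b ω) (o v) i| ≤ 2 ^ (kb + kd) := by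
        have e1 : ((z (b ω) (o ω) i : ℤ) : ℝ) - z (b ω) (o v) i =
            -(2 ^ n * Z ω i - z (b ω) (o ω) i) + ((2 : ℝ) ^ n * Z ω i - 2 ^ n * Z v i) +
              (2 ^ n * Z v i - z (b ω) (o v) i) := by ring
        rw [e1]
        have e2 := abs_add_le (-(2 ^ n * Z ω i - z (b ω) (o ω) i) +
          ((2 : ℝ) ^ n * Z ω i - 2 ^ n * Z v i)) (2 ^ n * Z v i - z (b ω) (o v) i)
        have e3 := abs_add_le (-(2 ^ n * Z ω i - z (b ω) (o ω) i))
          ((2 : ℝ) ^ n * Z ω i - 2 ^ n * Z v i)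
        rw [abs_neg] at e3
        have e4 : (2 : ℝ) ^ (kb + kd) = 2 * 2 ^ (kb + k + k1 + 1) := by
          rw [← pow_succ']
          congr 1
          omega
        linarith only [h1, h2, h4, h5, e2, e3, e4]
      exact_mod_cast h6
    exact by
     have hXX : ∀ ω, ω ∉ {ω | ¬ 0 < p ω} → ∀ i, |X₂ ω i - X₁ ω i - z (b ω) (o ω) i| ≤ 8 := by
       intro ω hω i
       have hωp : 0 < p ω := by
         by_contra h
         exact hω h
       have h1 := hzs (b ω) ω hωp rfl i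
       have h2 := hN ω hωp i
       obtain ⟨a1, a2⟩ := floor_err (N₁ ω i + ((u i : ℕ) : ℤ)) φ
       obtain ⟨a3, a4⟩ := floor_err (N₂ ω i + ((u i : ℕ) : ℤ)) φ
       have h3 : |((N₂ ω i + ((u i : ℕ) : ℤ) : ℤ) : ℝ) / 2 ^ φ -
           ((N₁ ω i + ((u i : ℕ) : ℤ) : ℤ) : ℝ) / 2 ^ φ - 2 ^ n * Z ω i| ≤ 1 := by
         have e1 : ((N₂ ω i + ((u i : ℕ) : ℤ) : ℤ) : ℝ) / 2 ^ φ -
             ((N₁ ω i + ((u i : ℕ) : ℤ) : ℤ) : ℝ) / 2 ^ φ - 2 ^ n * Z ω i =
             ((N₂ ω i : ℝ) - N₁ ω i - 2 ^ X * Z ω i) / 2 ^ φ := by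
           have e2 : (2 : ℝ) ^ X = 2 ^ φ * 2 ^ n := by rw [← pow_add, ← hXφ]
           rw [e2]
           push_cast
           field_simp
           ring
         rw [e1, abs_div, abs_of_pos (by positivity : (0 : ℝ) < 2 ^ φ), div_le_one (by positivity)]
         exact h2.trans (pow_le_pow_right₀ (by norm_num) (by omega))
       have h4 : |((X₂ ω i : ℤ) : ℝ) - X₁ ω i - z (b ω) (o ω) i| ≤ 8 := by
         have e5 : X₁ ω i = (N₁ ω i + ((u i : ℕ) : ℤ)) / ((2 ^ φ : ℕ) : ℤ) := rfl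
         have e6 : X₂ ω i = (N₂ ω i + ((u i : ℕ) : ℤ)) / ((2 ^ φ : ℕ) : ℤ) := rfl
         rw [abs_le] at h1 h3 ⊢
         rw [e5, e6]
         constructor <;> linarith [h1.1, h1.2, h3.1, h3.2]
       exact_mod_cast h4
     have hPrB : Pr p {ω | ¬ 0 < p ω} = 0 := by
       rw [Pool.KAF.Pr_eq]
       refine Finset.sum_eq_zero fun ω _ => ?_
       split_ifs with h
       · exact le_antisymm (not_lt.mp h) (hp.nonneg ω)
       · rfl
     -- the row
     exact by
      have hrow : ∀ ω, rowHV p X₂ (kb + kd) Kc t ω = rowHV p (sh N₂ u) (X - r + (k + 1)) Kc t ω := by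
        intro ω
        rw [hX₂, rowHV_rc, hlev]
      set W : Ω → ℝ := fun ω => if low p (sh N₂ u) t (X - r + (k + 1)) Kc (C₀ + 1) ω ∧
            faceOK p N₂ t (kb + kd) Kc C₁ φ u ω then 1 else 0 with hW
      set cv : Ω → Fin c → ℝ := fun ω => rcv p N₂ t kb kd Kc e₁ φ u (N₂ ω) (t ω) with hcv
      set ψ : Ω → O → ℝ := fun ω s => if (2 : ℝ) ^ kb <
        |∑ i, cv ω i * ((z (b ω) (o ω) i - z (b ω) s i : ℤ) : ℝ)| then 1 else 0 with hψ
      have hW0 : ∀ ω, 0 ≤ W ω := fun ω => by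
        simp only [hW]
        split_ifs <;> norm_num
      have hW1 : ∀ ω, W ω ≤ 1 := fun ω => by
        simp only [hW]
        split_ifs <;> norm_num
      have hψ0 : ∀ ω s, 0 ≤ ψ ω s := fun ω s => by
        simp only [hψ]
        split_ifs <;> norm_num
      have hψ1 : ∀ ω s, ψ ω s ≤ 1 := fun ω s => by
        simp only [hψ]
        split_ifs <;> norm_num
      -- first the displacement of the block
      have s1 : ∑ ω, p ω * (W ω * ∑ v, Pool.Agent.H49.Ent.cond p g (g ω) v *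
          (if 1 / 2 ^ (r + k1) ≤ |∑ i, cv ω i * (Z ω i - Z v i)| then 1 else 0)) ≤
          ∑ ω, p ω * (W ω * ∑ v, Pool.Agent.H49.Ent.cond p g (g ω) v * ψ ω (o v)) := by
        refine Finset.sum_le_sum fun ω _ => ?_
        rcases (hp.nonneg ω).eq_or_lt with hω | hω
        · rw [← hω, zero_mul, zero_mul]
        refine mul_le_mul_of_nonneg_left (mul_le_mul_of_nonneg_left
          (Finset.sum_le_sum fun v _ => ?_) (hW0 ω)) hω.le
        rcases (cond_nonneg hp.nonneg g (g ω) v).eq_or_lt with hv | hv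
        · rw [← hv, zero_mul, zero_mul]
        refine mul_le_mul_of_nonneg_left ?_ hv.le
        obtain ⟨k1', k2⟩ := (cond_pos_iff hp.nonneg g (g ω) v).1 hv
        by_cases hbig : 1 / 2 ^ (r + k1) ≤ |∑ i, cv ω i * (Z ω i - Z v i)|
        · rw [if_pos hbig]
          simp only [hψ]
          rw [if_pos (hZpos ω v (cv ω) (hcu ω) hω k1' k2 hbig)]
        · rw [if_neg hbig]
          exact hψ0 ω (o v)
      exact by
       have s2 := switch hp o C g F (fun ω _ => hoF ω) ha W ψ hW0 hW1 hψ0 hψ1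
       -- then the one scale theorem
       set T' := mi p X₁ o b + mi p X₂ o b +
         mi p X₂ b (fun ω => (rc (sh N₂ u) (X - r + (k + 1) + Kc) ω, t ω)) with hT'
       have hm1 : 0 ≤ mi p X₁ o b := mi_nonneg hp.nonneg _ _ _
       have hm2 : 0 ≤ mi p X₂ o b := mi_nonneg hp.nonneg _ _ _
       have hm3 : 0 ≤ mi p X₂ b (fun ω => (rc (sh N₂ u) (X - r + (k + 1) + Kc) ω, t ω)) :=
         mi_nonneg hp.nonneg _ _ _
       have s3 : ∑ ω, p ω * (W ω * ∑ v, Pool.Agent.H49.Ent.cond p b (b ω) v * ψ ω (o v)) ≤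
           ε₀ + T' / e := by
         by_cases hTe : T' ≤ e
         · have hdet : Det p b t := by
             intro ω ω' h1 h2 h
             exact htx ω ω' h1 h2 (Prod.ext_iff.mp (Prod.ext_iff.mp h).2).2
           have e1 : rc X₂ (kb + kd + Kc) = rc (sh N₂ u) (X - r + (k + 1) + Kc) := by
             rw [hX₂, rc_rc]
             congr 1
             omega
           have h1 := hRA Ω O _ θ p X₁ X₂ b o t z F {ω | ¬ 0 < p ω} hp hoF hFc hXX
             (by
               rw [hPrB]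
               exact he.le) hdet hZsmall (by
               show mi p X₁ o b ≤ e
               linarith only [hm2, hm3, hTe]) (by
               show mi p X₂ o b ≤ e
               linarith only [hm1, hm3, hTe]) (by
               show mi p _ b _ ≤ e
               rw [e1]
               linarith only [hm1, hm2, hTe])
           have h2 := Pr_dbl (p := p) b (fun ω v =>
             rowHV p X₂ (kb + kd) Kc t ω ≤ c * (Kc * Real.log 2) - (C₀ + 1) ∧
             c * Kc * Real.log 2 * Pr (Pool.Agent.H49.Ent.cond p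
             (fun v => (rc X₂ (kb + kd + Kc) v, t v)) (rc X₂ (kb + kd + Kc) ω, t ω))
             {v | X₂ v ∉ box (rc X₂ (kb + kd + Kc) ω) (kb + kd + Kc) (C₁ * 2 ^ (kb + kd))} ≤ 1 / 2 ∧
             (2 : ℝ) ^ kb < |∑ i, covOf kb (XiS (Pool.Agent.H49.Ent.cond p
             (fun v => (rc X₂ (kb + kd + Kc) v, t v)) (rc X₂ (kb + kd + Kc) ω, t ω)) X₂
             (rc X₂ (kb + kd + Kc) ω) kb kd Kc e₁) i *
             ((z (b ω) (o ω) i - z (b ω) (o v) i : ℤ) : ℝ)|)
           rw [h2] at h1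
           have h3 : 0 ≤ T' / e := div_nonneg (by linarith only [hm1, hm2, hm3]) he.le
           refine le_trans (le_of_eq ?_) (h1.trans (by linarith only [h3]))
           refine Finset.sum_congr rfl fun ω _ => ?_
           congr 1
           rw [Finset.mul_sum]
           refine Finset.sum_congr rfl fun v _ => ?_
           have q1 : low p (sh N₂ u) t (X - r + (k + 1)) Kc (C₀ + 1) ω ↔
             rowHV p X₂ (kb + kd) Kc t ω ≤ c * (Kc * Real.log 2) - (C₀ + 1) := by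
             rw [hrow ω]
             exact Iff.rfl
           have q2 : faceOK p N₂ t (kb + kd) Kc C₁ φ u ω ↔
             c * Kc * Real.log 2 * Pr (Pool.Agent.H49.Ent.cond p
             (fun v => (rc X₂ (kb + kd + Kc) v, t v)) (rc X₂ (kb + kd + Kc) ω, t ω))
             {v | X₂ v ∉ box (rc X₂ (kb + kd + Kc) ω) (kb + kd + Kc) (C₁ * 2 ^ (kb + kd))} ≤
               1 / 2 := Iff.rfl
           have q3 : (2 : ℝ) ^ kb < |∑ i, cv ω i * ((z (b ω) (o ω) i - z (b ω) (o v) i : ℤ) : ℝ)| ↔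
             (2 : ℝ) ^ kb < |∑ i, covOf kb (XiS (Pool.Agent.H49.Ent.cond p
             (fun v => (rc X₂ (kb + kd + Kc) v, t v)) (rc X₂ (kb + kd + Kc) ω, t ω)) X₂
             (rc X₂ (kb + kd + Kc) ω) kb kd Kc e₁) i *
             ((z (b ω) (o ω) i - z (b ω) (o v) i : ℤ) : ℝ)| := Iff.rfl
           simp only [hW, hψ, ← q2, ← q3]
           by_cases c1 : low p (sh N₂ u) t (X - r + (k + 1)) Kc (C₀ + 1) ω ∧
             faceOK p N₂ t (kb + kd) Kc C₁ φ u ω
           · by_cases c2 : (2 : ℝ) ^ kb <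
               |∑ i, cv ω i * ((z (b ω) (o ω) i - z (b ω) (o v) i : ℤ) : ℝ)|
             · rw [if_pos c1, if_pos c2, if_pos ⟨q1.mp c1.1, c1.2, c2⟩]
               ring
             · have c3 : ¬ (rowHV p X₂ (kb + kd) Kc t ω ≤ c * (Kc * Real.log 2) - (C₀ + 1) ∧
                 faceOK p N₂ t (kb + kd) Kc C₁ φ u ω ∧ (2 : ℝ) ^ kb <
                 |∑ i, cv ω i * ((z (b ω) (o ω) i - z (b ω) (o v) i : ℤ) : ℝ)|) := fun h => c2 h.2.2
               rw [if_neg c2, if_neg c3]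
               ring
           · have c3 : ¬ (rowHV p X₂ (kb + kd) Kc t ω ≤ c * (Kc * Real.log 2) - (C₀ + 1) ∧
                 faceOK p N₂ t (kb + kd) Kc C₁ φ u ω ∧ (2 : ℝ) ^ kb <
                 |∑ i, cv ω i * ((z (b ω) (o ω) i - z (b ω) (o v) i : ℤ) : ℝ)|) :=
               fun h => c1 ⟨q1.mpr h.1, h.2.1⟩
             rw [if_neg c1, if_neg c3]
             ring
         · have h1 : 1 ≤ T' / e := by
             rw [le_div_iff₀ he]
             linarith only [hTe, not_le.mp hTe]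
           have h2 : ∑ ω, p ω * (W ω * ∑ v, Pool.Agent.H49.Ent.cond p b (b ω) v * ψ ω (o v)) ≤
               ∑ ω, p ω * 1 := by
             refine Finset.sum_le_sum fun ω _ => ?_
             rcases (hp.nonneg ω).eq_or_lt with hω | hω
             · rw [← hω, zero_mul, zero_mul]
             refine mul_le_mul_of_nonneg_left ?_ hω.le
             have hq := isLaw_cond hp b hω
             have h3 : ∑ v, Pool.Agent.H49.Ent.cond p b (b ω) v * ψ ω (o v) ≤ 1 := by
               rw [← hq.sum_one]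
               refine Finset.sum_le_sum fun v _ => ?_
               exact mul_le_of_le_one_right (hq.nonneg v) (hψ1 ω (o v))
             have h4 : 0 ≤ ∑ v, Pool.Agent.H49.Ent.cond p b (b ω) v * ψ ω (o v) :=
               Finset.sum_nonneg fun v _ => mul_nonneg (hq.nonneg v) (hψ0 ω (o v))
             have := hW1 ω
             have := hW0 ω
             nlinarith
           rw [← Finset.sum_mul, hp.sum_one, one_mul] at h2
           linarith only [hε₀, h1, h2]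
       exact s1.trans (s2.trans (add_le_add_left s3 _))

end

end Pool.OCM.RV
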